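import Pool.Agent.Lib.OrlovCI.Nil

/-!
# Products of homologically trivial correspondences over `K`
-/

set_option autoImplicit false

open TensorProduct

namespace Pool.Agent.Lib.OrlovCI

lemma list_prod_mem_pow {S : Type*} [Ring S] {J : Submodule ℤ S} (l : List S)
    (hl : ∀ x ∈ l, x ∈ J) : l.prod ∈ J ^ l.length := by
  induction l with
  | nil =>
    rw [List.prod_nil, List.length_nil, pow_zero]
    exact Submodule.one_le.1 le_rfl
  | cons a l ih =>
    rw [List.prod_cons, List.length_cons, pow_succ']
    exact Submodule.mul_mem_mul (hl a List.mem_cons_self)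
      (ih (fun x hx => hl x (List.mem_cons_of_mem a hx)))

variable {T : Type*} [Ring T] [Algebra ℚ T] {G : Type*} [Group G] [MulSemiringAction G T]
    {A : Type*} [CommRing A] [Algebra ℚ A]
    {c : Restriction T A} {R : Type*} [Ring R] [Algebra ℚ R] {H : Type*} [AddCommGroup H]
    [Module ℚ H] [Module R H] [IsScalarTower ℚ R H]
    {W O Y : Type*} [AddCommGroup W] [Module ℚ W] [AddCommGroup O] [Module ℚ O]
    [AddCommGroup Y] [Module ℚ Y]

/-- **Products of `n` homologically trivial correspondences over `K` are zero.** -/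
theorem Cohomology.exists_list_prod_eq_zero (h : Cohomology G c R H) (hv : h.van ≠ ⊥)
    (F : UniversalFamily c G W O Y) : ∃ n : ℕ, ∀ l : List T, l.length = n →
      (∀ t ∈ l, h.act t = 0 ∧ ∀ g : G, g • t = t) → l.prod = 0 := by
  obtain ⟨n, hn⟩ := h.triv_pow_eq hv F
  refine ⟨n, fun l hl h1 => ?_⟩
  have h2 := list_prod_mem_pow (J := h.triv) l (fun x hx => (Cohomology.mem_triv h).2 (h1 x hx))
  rw [hl, hn] at h2
  exact h2

end Pool.Agent.Lib.OrlovCI
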