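import Pool.Agent.Lib.OrlovCI.Descent
import Mathlib.RingTheory.Idempotents

/-!
# The corner ring of an invariant idempotent
-/

set_option autoImplicit false

namespace Pool.Agent.Lib.OrlovCI

variable {T : Type*} [Ring T] {P : T} (hP : IsIdempotentElem P)

/-- the inclusion of the corner -/
def cval : hP.Corner →+ T where
  toFun x := x.1
  map_zero' := rfl
  map_add' _ _ := rfl

lemma cval_inj : Function.Injective (cval hP) := fun _ _ h => Subtype.ext h

lemma cval_mul (x y : hP.Corner) : cval hP (x * y) = cval hP x * cval hP y := rfl

lemma cval_one : cval hP 1 = P := rfl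

lemma left_cval (x : hP.Corner) : P * cval hP x = cval hP x :=
  ((Subsemigroup.mem_corner_iff hP).1 x.2).1

lemma cval_right (x : hP.Corner) : cval hP x * P = cval hP x :=
  ((Subsemigroup.mem_corner_iff hP).1 x.2).2

/-- an element of the corner -/
def cmk (t : T) (h : P * t = t ∧ t * P = t) : hP.Corner :=
  ⟨t, (Subsemigroup.mem_corner_iff hP).2 h⟩

lemma cval_cmk (t : T) (h : P * t = t ∧ t * P = t) : cval hP (cmk hP t h) = t := rfl

lemma cval_pow (x : hP.Corner) (n : ℕ) : cval hP (x ^ (n + 1)) = cval hP x ^ (n + 1) := by
  induction n with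
  | zero => rw [pow_one, pow_one]
  | succ n ih => rw [pow_succ, cval_mul, ih, ← pow_succ]

section Algebra

variable [Algebra ℚ T]

/-- scalar multiplication on the corner -/
def cornerSMul : SMul ℚ hP.Corner :=
  ⟨fun q x => cmk hP (q • cval hP x) ⟨by rw [mul_smul_comm, left_cval],
    by rw [smul_mul_assoc, cval_right]⟩⟩

/-- the corner as a vector space -/
def cornerModule : Module ℚ hP.Corner :=
  letI := cornerSMul hP
  Function.Injective.module ℚ (cval hP) (cval_inj hP) (fun _ _ => rfl)

/-- the corner as an algebra -/
noncomputable def cornerAlgebra : Algebra ℚ hP.Corner :=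
  letI := cornerModule hP
  Algebra.ofModule (fun q x y => cval_inj hP (by
    change (q • cval hP x) * cval hP y = q • (cval hP x * cval hP y)
    rw [smul_mul_assoc])) (fun q x y => cval_inj hP (by
    change cval hP x * (q • cval hP y) = q • (cval hP x * cval hP y)
    rw [mul_smul_comm]))

lemma cval_smul (q : ℚ) (x : hP.Corner) :
    letI := cornerAlgebra hP
    cval hP (q • x) = q • cval hP x := rfl

end Algebra

section Action

variable {G : Type*} [Group G] [MulSemiringAction G T] (hG : ∀ g : G, g • P = P)

include hG in
lemma left_smul (g : G) (t : T) (h : P * t = t) : P * (g • t) = g • t := by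
  conv_lhs => rw [← hG g]
  rw [← smul_mul', h]

include hG in
lemma smul_right' (g : G) (t : T) (h : t * P = t) : (g • t) * P = g • t := by
  conv_lhs => rw [← hG g]
  rw [← smul_mul', h]

/-- the group acts on the corner of an invariant idempotent -/
def cornerAction : MulSemiringAction G hP.Corner where
  smul g x := cmk hP (g • cval hP x) ⟨left_smul hG g _ (left_cval hP x),
    smul_right' hG g _ (cval_right hP x)⟩
  one_smul x := cval_inj hP (one_smul G (cval hP x))
  mul_smul g h x := cval_inj hP (mul_smul g h (cval hP x))
  smul_zero g := cval_inj hP (smul_zero g)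
  smul_add g x y := cval_inj hP (smul_add g (cval hP x) (cval hP y))
  smul_one g := cval_inj hP (hG g)
  smul_mul g x y := cval_inj hP (smul_mul' g (cval hP x) (cval hP y))

lemma cval_act (g : G) (x : hP.Corner) :
    letI := cornerAction hP hG
    cval hP (g • x) = g • cval hP x := rfl

end Action

end Pool.Agent.Lib.OrlovCI
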