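import Pool.Agent.Lib.OrlovCI.Pieces
import Pool.Agent.Lib.OrlovCurves.Sl2

/-!
# Multiplicities in objects which are finite sums of pieces
-/

set_option autoImplicit false

open CategoryTheory CategoryTheory.Limits

namespace Pool.Agent.Lib.OrlovCI

open Pool.Agent.Lib.MP_5c0b30_ag Pool.Agent.Lib.OrlovCurves

universe v u

section Basic

variable {C : Type u} [Category.{v} C] [Preadditive C] {𝒜 : C → Prop}

lemma frame_zero {A Z : C} (hZ : 𝟙 Z = 0) (J : Rad A) : Nonempty (Frame J Z Empty) :=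
  ⟨{ i := fun k => k.elim
     r := fun k => k.elim
     diag := fun k => k.elim
     off := fun k => k.elim
     rest := fun φ ψ => by
      have h : φ = 0 := by rw [← Category.comp_id φ, hZ, comp_zero]
      rw [h, zero_comp]
      exact J.zero }⟩

/-- the multiplicity of a local object in a finite sum of local objects -/
lemma mult_iff {A X Z : C} (hZ : 𝟙 Z = 0) (hA : Loc A) {μ : Type} [Fintype μ] {B : μ → C}
    (hB : ∀ k, Loc (B k)) (d : Dec X Z B) (n : ℕ) :
    IsSummand (fun _ : Fin n => A) X ↔ n ≤ Nat.card {k // Nonempty (A ≅ B k)} := by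
  classical
  obtain ⟨F⟩ := frame_zero hZ hA.rad
  obtain ⟨G⟩ := d.frame' hA hB F
  rw [G.isSummand_iff, Fintype.card_sum, Fintype.card_eq_zero (α := Empty), zero_add,
    Nat.card_eq_fintype_card]
  rfl

lemma card_eq_of_sameMult' {A M M' Z Z' : C} (hZ : 𝟙 Z = 0) (hZ' : 𝟙 Z' = 0) (hA : Loc A)
    {μ μ' : Type} [Fintype μ] [Fintype μ'] {B : μ → C} {B' : μ' → C} (hB : ∀ k, Loc (B k))
    (hB' : ∀ k, Loc (B' k)) (d : Dec M Z B) (d' : Dec M' Z' B')
    (h : ∀ n, IsSummand (fun _ : Fin n => A) M ↔ IsSummand (fun _ : Fin n => A) M') :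
    Nat.card {k // Nonempty (A ≅ B k)} = Nat.card {k // Nonempty (A ≅ B' k)} := by
  have h1 : ∀ n, n ≤ Nat.card {k // Nonempty (A ≅ B k)} ↔
      n ≤ Nat.card {k // Nonempty (A ≅ B' k)} := fun n => by
    rw [← mult_iff hZ hA hB d n, ← mult_iff hZ' hA hB' d' n]
    exact h n
  exact le_antisymm ((h1 _).1 le_rfl) ((h1 _).2 le_rfl)

lemma card_le_of_summand {A M M' Z Z' : C} (hZ : 𝟙 Z = 0) (hZ' : 𝟙 Z' = 0) (hA : Loc A)
    {μ μ' : Type} [Fintype μ] [Fintype μ'] {B : μ → C} {B' : μ' → C} (hB : ∀ k, Loc (B k))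
    (hB' : ∀ k, Loc (B' k)) (d : Dec M Z B) (d' : Dec M' Z' B')
    (h : ∀ n, IsSummand (fun _ : Fin n => A) M → IsSummand (fun _ : Fin n => A) M') :
    Nat.card {k // Nonempty (A ≅ B k)} ≤ Nat.card {k // Nonempty (A ≅ B' k)} := by
  have h1 := (mult_iff hZ hA hB d _).2 le_rfl
  exact (mult_iff hZ' hA hB' d' _).1 (h _ h1)

/-- the multiplicities of `A` and of its dual in a self-dual object are equal -/
lemma card_dual {A A' X Z : C} (hZ : 𝟙 Z = 0) (hA : Loc A) (hA' : Loc A') {μ : Type} [Fintype μ]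
    {B : μ → C} (hB : ∀ k, Loc (B k)) (d : Dec X Z B) (Θ : Cᵒᵖ ≌ C)
    (hX : Nonempty (Θ.functor.obj (Opposite.op X) ≅ X))
    (h : Nonempty (A' ≅ Θ.functor.obj (Opposite.op A))) :
    Nat.card {k // Nonempty (A ≅ B k)} = Nat.card {k // Nonempty (A' ≅ B k)} := by
  have h1 : ∀ n, n ≤ Nat.card {k // Nonempty (A ≅ B k)} ↔
      n ≤ Nat.card {k // Nonempty (A' ≅ B k)} := fun n => by
    rw [← mult_iff hZ hA hB d n, ← mult_iff hZ hA' hB d n]
    exact summand_selfdual Θ hX h n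
  exact le_antisymm ((h1 _).1 le_rfl) ((h1 _).2 le_rfl)

lemma one_mem_through {X Z : C} (hZ : 𝟙 Z = 0) {μ : Type} [Fintype μ] {B : μ → C}
    (hB : ∀ k, 𝒜 (B k)) (d : Dec X Z B) : 𝟙 X ∈ through 𝒜 X X := by
  have h1 : d.r0 ≫ d.i0 = 0 := by
    rw [← Category.id_comp d.i0, hZ, zero_comp, comp_zero]
  have h2 := d.total
  rw [h1, zero_add] at h2
  rw [← h2]
  exact AddSubgroup.sum_mem _ (fun k _ => AddSubgroup.subset_closure ⟨B k, d.r k, d.i k, hB k, rfl⟩)

/-- an object whose identity passes through local objects is a finite sum of such objects -/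
theorem exists_dec [IsIdempotentComplete C] [HasZeroObject C] (hloc : ∀ A, 𝒜 A → Loc A) {X : C}
    (h : 𝟙 X ∈ through 𝒜 X X) : ∃ (μ : Type) (_ : Fintype μ) (B : μ → C) (Z : C), 𝟙 Z = 0 ∧
      (∀ k, 𝒜 (B k)) ∧ Nonempty (Dec X Z B) := by
  obtain ⟨κ, _, A, a, b, hA, hab⟩ := through_sum h
  obtain ⟨μ, _, B, Z, d, f, g, hB, hfg, -⟩ := decomposition (M' := HasZeroObject.zero' C |>.zero)
    hloc κ 0 0 A a b hA (by rw [hab, zero_comp, zero_add]) (by
      have h6 : ∀ (k : (HasZeroObject.zero' C).zero ⟶ (HasZeroObject.zero' C).zero), k = 0 :=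
        fun k => HasZeroObject.from_zero_ext _ _
      rw [h6 (_ - _)]
      exact AddSubgroup.zero_mem _)
  exact ⟨μ, inferInstance, B, Z, by
    rw [← hfg]
    have : f = 0 := HasZeroObject.to_zero_ext _ _
    rw [this, zero_comp], hB, ⟨d⟩⟩

end Basic

end Pool.Agent.Lib.OrlovCI
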