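import Mathlib.Algebra.Ring.Action.Basic
import Mathlib.Algebra.Algebra.Hom
import Mathlib.LinearAlgebra.TensorProduct.Basic
import Mathlib.Algebra.Exact.Basic
import Mathlib.RingTheory.Nilpotent.Basic
import Mathlib.RingTheory.Ideal.Maps
import Mathlib.RingTheory.Ideal.Operations

/-!
# Cycles on the square of the generic member of a family of zero schemes

`P` is a smooth projective variety whose motive is a sum of Tate motives, `𝒳 → B` the family of the
smooth zero schemes of the sections of a vector bundle on `P` in a linear system `V` which separates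
pairs of points, `K` the function field of `B` and `X` the generic member. `F` is a finite Galois
extension of `K` with group `G`, and `T` is the ring of the self-correspondences of all degrees of
`X_F` (Chow groups with rational coefficients; `s * t` is: first `s`, then `t`).
-/

set_option autoImplicit false

open TensorProduct

namespace Pool.Agent.Lib.OrlovCI

/-- The restrictions to `X` of the cycles on `P`. `A` is the Chow ring of `P` with rational
coefficients. -/
structure Restriction (T : Type*) [Ring T] [Algebra ℚ T] (A : Type*) [CommRing A] [Algebra ℚ A] where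
  /-- the component in codimension `0` -/
  aug : A →ₐ[ℚ] ℚ
  /-- the ideal of the classes of positive codimension is nilpotent -/
  nilpotent : IsNilpotent (RingHom.ker aug)
  /-- `deg x` is the degree of the zero cycle in the restriction of `x` to `X` -/
  deg : A →ₗ[ℚ] ℚ
  /-- `diag x` is the direct image of the restriction of `x` under the diagonal of `X` -/
  diag : A →ₐ[ℚ] T
  /-- `prod x y` is the exterior product of the restrictions of `x` and `y` -/
  prod : A →ₗ[ℚ] A →ₗ[ℚ] T
  prod_mul_prod : ∀ x y z w, prod x y * prod z w = deg (y * z) • prod x w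
  diag_mul_prod : ∀ x y z, diag x * prod y z = prod (x * y) z
  prod_mul_diag : ∀ x y z, prod x y * diag z = prod x (y * z)

/-- The Chow groups of the fibre product `W` of `𝒳` with itself over `B`, which is contained in
`B × P × P`. `O` is the Chow group of the part of `W` over the complement of the diagonal of `P × P`,
and `Y` the Chow group of the diagonal of `W`, that is of `𝒳`. -/
structure UniversalFamily {T : Type*} [Ring T] [Algebra ℚ T] {A : Type*} [CommRing A] [Algebra ℚ A]
    (c : Restriction T A) (G : Type*) [Group G] [MulSemiringAction G T] (W O Y : Type*)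
    [AddCommGroup W] [Module ℚ W] [AddCommGroup O] [Module ℚ O] [AddCommGroup Y] [Module ℚ Y] where
  /-- the restriction of cycles from `P × P` to `W`; by the Künneth formula the Chow group of `P × P`
  is `A ⊗ A` -/
  res : A ⊗[ℚ] A →ₗ[ℚ] W
  /-- restriction to the open part -/
  toOpen : W →ₗ[ℚ] O
  /-- the open part is an open subset of a vector bundle over the complement of the diagonal in
  `P × P` -/
  surj_open : Function.Surjective (toOpen ∘ₗ res)
  /-- direct image from the diagonal of `W` -/
  push : Y →ₗ[ℚ] W
  /-- the localisation sequence -/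
  exact : Function.Exact push toOpen
  /-- the restriction of cycles from `P` to `𝒳` -/
  resDiag : A →ₗ[ℚ] Y
  /-- `𝒳` is an open subset of a vector bundle over `P` -/
  surj_diag : Function.Surjective resDiag
  /-- restriction to the generic fibre and extension of scalars from `K` to `F` -/
  gen : W →ₗ[ℚ] T
  smul_gen : ∀ (g : G) (w : W), g • gen w = gen w
  /-- every cycle over `K` is the restriction of a cycle on `W`, and every Galois invariant cycle
  over `F` comes from `K` -/
  surj_gen : ∀ t : T, (∀ g : G, g • t = t) → ∃ w, gen w = t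
  gen_res : ∀ x y : A, gen (res (x ⊗ₜ y)) = c.prod x y
  gen_push : ∀ x : A, gen (push (resDiag x)) = c.diag x

lemma Restriction.aug_nil {T : Type*} [Ring T] [Algebra ℚ T] {A : Type*} [CommRing A] [Algebra ℚ A]
    (c : Restriction T A) (x : A) (hx : c.aug x = 0) : IsNilpotent x := by
  obtain ⟨n, hn⟩ := c.nilpotent
  refine ⟨n, ?_⟩
  have h1 : x ^ n ∈ RingHom.ker c.aug ^ n := Ideal.pow_mem_pow hx n
  rw [hn] at h1
  exact h1

namespace UniversalFamily

variable {T : Type*} [Ring T] [Algebra ℚ T] {A : Type*} [CommRing A] [Algebra ℚ A]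
  {c : Restriction T A} {G : Type*} [Group G] [MulSemiringAction G T] {W O Y : Type*}
  [AddCommGroup W] [Module ℚ W] [AddCommGroup O] [Module ℚ O] [AddCommGroup Y] [Module ℚ Y]

/-- the map from the Chow group of `P × P` -/
noncomputable def lin (c : Restriction T A) : A ⊗[ℚ] A →ₗ[ℚ] T := TensorProduct.lift c.prod

lemma smul_prod (u : UniversalFamily c G W O Y) (g : G) (x y : A) :
    g • c.prod x y = c.prod x y := by
  rw [← u.gen_res, u.smul_gen]

lemma gen_res' (u : UniversalFamily c G W O Y) (x : A ⊗[ℚ] A) : u.gen (u.res x) = lin c x := by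
  induction x using TensorProduct.induction_on with
  | zero => simp
  | tmul x y => rw [u.gen_res, lin, TensorProduct.lift.tmul]
  | add x y hx hy => rw [map_add, map_add, hx, hy, map_add]

/-- **Spread of the cycles over `K`.** -/
theorem exists_eq (u : UniversalFamily c G W O Y) (t : T) (ht : ∀ g : G, g • t = t) :
    ∃ (x : A ⊗[ℚ] A) (z : A), t = lin c x + c.diag z := by
  obtain ⟨w, rfl⟩ := u.surj_gen t ht
  obtain ⟨x, hx⟩ := u.surj_open (u.toOpen w)
  have h1 : u.toOpen (w - u.res x) = 0 := by
    rw [map_sub, sub_eq_zero]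
    exact hx.symm
  obtain ⟨y, hy⟩ := (u.exact _).1 h1
  obtain ⟨z, rfl⟩ := u.surj_diag y
  refine ⟨x, z, ?_⟩
  rw [← u.gen_res', ← u.gen_push, hy, ← map_add]
  congr 1
  abel

end UniversalFamily

section Algebra

variable {T : Type*} [Ring T] [Algebra ℚ T] {A : Type*} [CommRing A] [Algebra ℚ A]
  (c : Restriction T A)

open UniversalFamily

lemma range_left (z : A) (x : A ⊗[ℚ] A) : ∃ y, c.diag z * lin c x = lin c y := by
  induction x using TensorProduct.induction_on with
  | zero => exact ⟨0, by simp⟩
  | tmul x y => exact ⟨(z * x) ⊗ₜ y, by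
      rw [lin, TensorProduct.lift.tmul, TensorProduct.lift.tmul, c.diag_mul_prod]⟩
  | add x y hx hy =>
    obtain ⟨a, ha⟩ := hx
    obtain ⟨b, hb⟩ := hy
    exact ⟨a + b, by rw [map_add, mul_add, ha, hb, map_add]⟩

lemma range_right (z : A) (x : A ⊗[ℚ] A) : ∃ y, lin c x * c.diag z = lin c y := by
  induction x using TensorProduct.induction_on with
  | zero => exact ⟨0, by simp⟩
  | tmul x y => exact ⟨x ⊗ₜ (y * z), by
      rw [lin, TensorProduct.lift.tmul, TensorProduct.lift.tmul, c.prod_mul_diag]⟩
  | add x y hx hy =>
    obtain ⟨a, ha⟩ := hx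
    obtain ⟨b, hb⟩ := hy
    exact ⟨a + b, by rw [map_add, add_mul, ha, hb, map_add]⟩

lemma range_mul (x y : A ⊗[ℚ] A) : ∃ z, lin c x * lin c y = lin c z := by
  induction x using TensorProduct.induction_on with
  | zero => exact ⟨0, by simp⟩
  | add x x' hx hx' =>
    obtain ⟨a, ha⟩ := hx
    obtain ⟨b, hb⟩ := hx'
    exact ⟨a + b, by rw [map_add, add_mul, ha, hb, map_add]⟩
  | tmul x x' =>
    induction y using TensorProduct.induction_on with
    | zero => exact ⟨0, by simp⟩
    | tmul y y' => exact ⟨c.deg (x' * y) • (x ⊗ₜ y'), by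
        rw [map_smul]
        simp only [lin, TensorProduct.lift.tmul]
        rw [c.prod_mul_prod]⟩
    | add y y' hy hy' =>
      obtain ⟨a, ha⟩ := hy
      obtain ⟨b, hb⟩ := hy'
      exact ⟨a + b, by rw [map_add, mul_add, ha, hb, map_add]⟩

lemma pow_eq (x : A ⊗[ℚ] A) (z : A) (n : ℕ) :
    ∃ y, (lin c x + c.diag z) ^ n = lin c y + c.diag (z ^ n) := by
  induction n with
  | zero => exact ⟨0, by simp⟩
  | succ n ih =>
    obtain ⟨y, hy⟩ := ih
    obtain ⟨a1, h1⟩ := range_mul c y x
    obtain ⟨a2, h2⟩ := range_right c z y
    obtain ⟨a3, h3⟩ := range_left c (z ^ n) x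
    refine ⟨a1 + a2 + a3, ?_⟩
    rw [pow_succ, hy, add_mul, mul_add, mul_add, h1, h2, h3, ← map_mul, ← pow_succ, map_add,
      map_add]
    abel

end Algebra

end Pool.Agent.Lib.OrlovCI
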