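import Pool.Agent.Lib.OrlovCurves.Defs
import Mathlib.Algebra.Ring.Action.Basic
import Mathlib.Algebra.Algebra.Defs
import Mathlib.Algebra.Group.Subgroup.Defs

/-!
# Motives of the members of complete families: definitions

`C` is the category of Chow motives with rational coefficients over a finite extension `L` of the
function field `K` of the parameter space of a family of varieties, with the Tate twists
`X ↦ X⟦n⟧`, and `N` is the variable part of the motive of the generic member, over `L`.
-/

set_option autoImplicit false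

open CategoryTheory CategoryTheory.Limits

namespace Pool.Agent.Lib.OrlovCI

open Pool.Agent.Lib.MP_5c0b30_ag Pool.Agent.Lib.OrlovCurves

universe v u

/-- `T` is the ring of the correspondences of all degrees of `N` over a finite Galois extension of `K`
that contains `L`, `G` is the Galois group over `K` and `U` the one over `L`; `D` contains the
endomorphisms of the cohomology of `N`. -/
structure Family {C : Type u} [Category.{v} C] [Preadditive C] [HasShift C ℤ] (N : C)
    (T : Type*) [Ring T] [Algebra ℚ T] (G : Type*) [Group G] [MulSemiringAction G T]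
    (U : Subgroup G) (D : Type*) [DivisionRing D] [Algebra ℚ D] where
  /-- extension of scalars, in every degree -/
  ext : ∀ n : ℤ, (N ⟶ N⟦n⟧) →+ T
  ext_id : ext 0 (ShiftedHom.mk₀ 0 rfl (𝟙 N)) = 1
  ext_comp : ∀ {a b c : ℤ} (f : N ⟶ N⟦a⟧) (g : N ⟶ N⟦b⟧) (h : b + a = c),
    ext c (ShiftedHom.comp f g h) = ext a f * ext b g
  /-- Galois descent from the Galois extension to `L`: the `U`-invariant elements are the finite sums
  of elements coming from `C`, in a unique way -/
  descent : ∀ t : T, (∀ g ∈ U, g • t = t) →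
    ∃ f : ∀ n : ℤ, N ⟶ N⟦n⟧, {n | f n ≠ 0}.Finite ∧ t = ∑ᶠ n, ext n (f n)
  invariant : ∀ g ∈ U, ∀ (n : ℤ) (f : N ⟶ N⟦n⟧), g • ext n f = ext n f
  unique : ∀ f : ∀ n : ℤ, N ⟶ N⟦n⟧, {n | f n ≠ 0}.Finite → ∑ᶠ n, ext n (f n) = 0 → f = 0
  /-- the action on the cohomology of `N`, which has one degree -/
  act : T →ₐ[ℚ] D
  act_ext : ∀ n : ℤ, n ≠ 0 → ∀ f : N ⟶ N⟦n⟧, act (ext n f) = 0
  /-- homological triviality is Galois invariant -/
  act_smul : ∀ (g : G) (t : T), act t = 0 → act (g • t) = 0
  /-- over `K` the homologically trivial correspondences of `N` are nilpotent -/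
  nilpotent : ∀ t : T, (∀ g : G, g • t = t) → act t = 0 → IsNilpotent t

/-- The multiplicities of the twists of `A` in `M` are at most those in `M'`, or they are known to be
equal up to duality: for all twists outside one orbit `{A⟦n⟧, Θ (A⟦n⟧)}` of the duality `Θ`. -/
def KnownMult {C : Type u} [Category.{v} C] [Preadditive C] [HasShift C ℤ] (Θ : Cᵒᵖ ≌ C)
    (A M M' : C) : Prop :=
  (∀ (i : ℤ) (n : ℕ), IsSummand (fun _ : Fin n => A⟦i⟧) M → IsSummand (fun _ : Fin n => A⟦i⟧) M') ∨
    ∃ n : ℤ, ∀ i : ℤ, SameMult (A⟦i⟧) M M' ∨ i = n ∨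
      Nonempty (A⟦i⟧ ≅ Θ.functor.obj (Opposite.op (A⟦n⟧)))

end Pool.Agent.Lib.OrlovCI
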