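import Pool.Agent.Lib.OrlovCI.Local
import Pool.Agent.Lib.OrlovCI.Cycles
import Mathlib.RingTheory.SimpleModule.Basic
import Mathlib.LinearAlgebra.Dimension.Finrank

/-!
# The generic member over a finite extension: Galois descent and cohomology
-/

set_option autoImplicit false

open CategoryTheory CategoryTheory.Limits

namespace Pool.Agent.Lib.OrlovCI

open Pool.Agent.Lib.MP_5c0b30_ag Pool.Agent.Lib.OrlovCurves

universe v u

/-- Galois descent. `C` is the category of Chow motives with rational coefficients over a finite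
extension `L` of `K`, `M` is the motive of `X_L`, and `T` is the ring of the self-correspondences of
all degrees of `X_F`, where `F` is a finite Galois extension of `K` which contains `L`. The Galois
group of `F` over `K` is `G`, and `U` is the Galois group of `F` over `L`. -/
structure Descent {C : Type u} [Category.{v} C] [Preadditive C] [HasShift C ℤ] (M : C)
    (T : Type*) [Ring T] [Algebra ℚ T] (G : Type*) [Group G] [MulSemiringAction G T]
    (U : Subgroup G) where
  /-- extension of scalars from `L` to `F`, for correspondences of degree `n` -/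
  ext : ∀ n : ℤ, (M ⟶ M⟦n⟧) →+ T
  ext_id : ext 0 (ShiftedHom.mk₀ 0 rfl (𝟙 M)) = 1
  ext_comp : ∀ {a b c : ℤ} (f : M ⟶ M⟦a⟧) (g : M ⟶ M⟦b⟧) (h : b + a = c),
    ext c (ShiftedHom.comp f g h) = ext a f * ext b g
  /-- the `U`-invariant correspondences are the finite sums of correspondences over `L`, in a unique
  way -/
  descent : ∀ t : T, (∀ g ∈ U, g • t = t) →
    ∃ f : ∀ n : ℤ, M ⟶ M⟦n⟧, {n | f n ≠ 0}.Finite ∧ t = ∑ᶠ n, ext n (f n)
  invariant : ∀ g ∈ U, ∀ (n : ℤ) (f : M ⟶ M⟦n⟧), g • ext n f = ext n f
  unique : ∀ f : ∀ n : ℤ, M ⟶ M⟦n⟧, {n | f n ≠ 0}.Finite → ∑ᶠ n, ext n (f n) = 0 → f = 0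

/-- Cohomology. `H` is the rational cohomology of the fibre of the family over a point of the
covering `B_F` of `B` with function field `F`; it is a module over the group algebra `R` of the
fundamental group of `B_F`. A correspondence `t` acts by `t^* v = p_{1*}(t · p_2^* v)`. -/
structure Cohomology {T : Type*} [Ring T] [Algebra ℚ T] (G : Type*) [Group G]
    [MulSemiringAction G T] {A : Type*} [CommRing A] [Algebra ℚ A]
    (c : Restriction T A) (R : Type*) [Ring R] [Algebra ℚ R] (H : Type*) [AddCommGroup H]
    [Module ℚ H] [Module R H] [IsScalarTower ℚ R H] where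
  /-- the action of the correspondences commutes with the monodromy -/
  act : T →ₐ[ℚ] Module.End R H
  /-- homological triviality is Galois invariant -/
  act_smul : ∀ (g : G) (t : T), act t = 0 → act (g • t) = 0
  /-- the cohomology class of the restriction to `X` of a cycle on `P` -/
  cl : A →ₗ[ℚ] H
  /-- homologically trivial cycles are numerically trivial -/
  deg_eq_zero : ∀ x, cl x = 0 → ∀ y, c.deg (x * y) = 0
  act_prod_cl : ∀ x y z, act (c.prod x y) (cl z) = c.deg (y * z) • cl x

/-- The vanishing cohomology: the orthogonal complement of the classes restricted from `P`. -/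
def Cohomology.van {T : Type*} [Ring T] [Algebra ℚ T] {G : Type*} [Group G]
    [MulSemiringAction G T] {A : Type*} [CommRing A] [Algebra ℚ A]
    {c : Restriction T A} {R : Type*} [Ring R] [Algebra ℚ R] {H : Type*} [AddCommGroup H]
    [Module ℚ H] [Module R H] [IsScalarTower ℚ R H] (h : Cohomology G c R H) : Submodule R H :=
  ⨅ (x : A) (y : A), LinearMap.ker (h.act (c.prod x y))

section

variable {T : Type*} [Ring T] [Algebra ℚ T] {G : Type*} [Group G] [MulSemiringAction G T]
    {A : Type*} [CommRing A] [Algebra ℚ A]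
    {c : Restriction T A} {R : Type*} [Ring R] [Algebra ℚ R] {H : Type*} [AddCommGroup H]
    [Module ℚ H] [Module R H] [IsScalarTower ℚ R H]

namespace Cohomology

open UniversalFamily TensorProduct

/-- the action of `x ⊗ y` on `A` -/
noncomputable def sg (c : Restriction T A) : A ⊗[ℚ] A →ₗ[ℚ] A →ₗ[ℚ] A :=
  TensorProduct.lift (LinearMap.mk₂ ℚ
    (fun x y => (c.deg ∘ₗ LinearMap.mulLeft ℚ y).smulRight x)
    (fun x x' y => by ext w; simp)
    (fun q x y => by
      ext w
      simp only [LinearMap.smulRight_apply, LinearMap.comp_apply, LinearMap.smul_apply,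
        LinearMap.mulLeft_apply]
      rw [smul_comm])
    (fun x y y' => by
      ext w
      simp only [LinearMap.smulRight_apply, LinearMap.comp_apply, LinearMap.add_apply,
        LinearMap.mulLeft_apply, add_mul, map_add, add_smul])
    (fun q x y => by
      ext w
      simp only [LinearMap.smulRight_apply, LinearMap.comp_apply, LinearMap.smul_apply,
        LinearMap.mulLeft_apply, smul_mul_assoc, map_smul, smul_assoc]))

lemma sg_tmul (c : Restriction T A) (x y w : A) : sg c (x ⊗ₜ y) w = c.deg (y * w) • x := by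
  simp [sg, LinearMap.mk₂_apply]

lemma lin_mul_prod (u : A ⊗[ℚ] A) (z w : A) : lin c u * c.prod z w = c.prod (sg c u z) w := by
  induction u using TensorProduct.induction_on with
  | zero => simp
  | tmul x y =>
    rw [sg_tmul, lin, TensorProduct.lift.tmul, c.prod_mul_prod, map_smul, LinearMap.smul_apply]
  | add x y hx hy => rw [map_add, add_mul, hx, hy, map_add, LinearMap.add_apply, map_add,
      LinearMap.add_apply]

lemma act_lin_cl (h : Cohomology G c R H) (u : A ⊗[ℚ] A) (z : A) :
    h.act (lin c u) (h.cl z) = h.cl (sg c u z) := by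
  induction u using TensorProduct.induction_on with
  | zero => simp
  | tmul x y =>
    rw [sg_tmul, lin, TensorProduct.lift.tmul, h.act_prod_cl, map_smul]
  | add x y hx hy => rw [map_add, map_add, LinearMap.add_apply, hx, hy, map_add,
      LinearMap.add_apply, map_add]

lemma mem_van (h : Cohomology G c R H) {v : H} : v ∈ h.van ↔ ∀ x y, h.act (c.prod x y) v = 0 := by
  simp [van, Submodule.mem_iInf]

lemma act_prod_van (h : Cohomology G c R H) (x y : A) (v : H) (hv : v ∈ h.van) :
    h.act (c.prod x y) v = 0 := h.mem_van.1 hv x y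

lemma act_lin_van (h : Cohomology G c R H) (u : A ⊗[ℚ] A) {v : H} (hv : v ∈ h.van) :
    h.act (lin c u) v = 0 := by
  induction u using TensorProduct.induction_on with
  | zero => simp
  | tmul x y => rw [lin, TensorProduct.lift.tmul, h.act_prod_van x y v hv]
  | add x y hx hy => rw [map_add, map_add, LinearMap.add_apply, hx, hy, add_zero]

/-- the classes whose component in codimension `0` is not zero are invertible -/
lemma isUnit_diag (c : Restriction T A) (z : A) (h : c.aug z ≠ 0) : IsUnit (c.diag z) := by
  apply IsUnit.map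
  have h1 : c.aug (z - algebraMap ℚ A (c.aug z)) = 0 := by
    rw [map_sub, AlgHom.commutes]
    exact sub_self _
  have h2 := c.aug_nil _ h1
  have h3 : IsUnit (algebraMap ℚ A (c.aug z)) := (isUnit_iff_ne_zero.2 h).map (algebraMap ℚ A)
  have h4 := h2.isUnit_add_left_of_commute h3 (Commute.all _ _)
  rwa [add_sub_cancel] at h4

lemma lin_mul_lin_mul_lin (h : Cohomology G c R H) (u : A ⊗[ℚ] A) (h0 : h.act (lin c u) = 0)
    (x y : A ⊗[ℚ] A) : lin c x * (lin c u * lin c y) = 0 := by
  have h1 : ∀ z w, c.deg (sg c u z * w) = 0 := by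
    intro z w
    apply h.deg_eq_zero
    rw [← act_lin_cl, h0]
    rfl
  induction y using TensorProduct.induction_on with
  | zero => simp
  | add y y' hy hy' => rw [map_add, mul_add, mul_add, hy, hy', add_zero]
  | tmul z w =>
    have h3 : lin c (z ⊗ₜ w) = c.prod z w := by rw [lin, TensorProduct.lift.tmul]
    rw [h3, lin_mul_prod]
    induction x using TensorProduct.induction_on with
    | zero => simp
    | add x x' hx hx' => rw [map_add, add_mul, hx, hx', add_zero]
    | tmul a b =>
      rw [lin, TensorProduct.lift.tmul, c.prod_mul_prod, mul_comm, h1, zero_smul]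

/-- a homologically trivial combination of exterior products -/
lemma lin_cube (h : Cohomology G c R H) (u : A ⊗[ℚ] A) (h0 : h.act (lin c u) = 0) :
    lin c u * lin c u * lin c u = 0 := by
  rw [mul_assoc, lin_mul_lin_mul_lin h u h0]

/-- the homologically trivial correspondences over `K` -/
theorem exists_eq_of_act (h : Cohomology G c R H) (hv : h.van ≠ ⊥) {W O Y : Type*}
    [AddCommGroup W] [Module ℚ W] [AddCommGroup O] [Module ℚ O] [AddCommGroup Y] [Module ℚ Y]
    (F : UniversalFamily c G W O Y) (t : T) (ht : ∀ g : G, g • t = t) (h0 : h.act t = 0) :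
    ∃ (x : A ⊗[ℚ] A) (z : A), c.aug z = 0 ∧ t = lin c x + c.diag z := by
  obtain ⟨x, z, rfl⟩ := F.exists_eq t ht
  refine ⟨x, z, ?_, rfl⟩
  obtain ⟨v, hv1, hv2⟩ := (Submodule.ne_bot_iff _).1 hv
  by_contra h3
  obtain ⟨w, hw⟩ := isUnit_diag c z h3
  have h2 : h.act (lin c x + c.diag z) v = h.act (c.diag z) v := by
    rw [map_add, LinearMap.add_apply, act_lin_van h x hv1, zero_add]
  rw [h0, LinearMap.zero_apply] at h2
  apply hv2
  have h4 : h.act (↑w⁻¹ * ↑w : T) v = 0 := by
    rw [map_mul, hw]
    change h.act ↑w⁻¹ (h.act (c.diag z) v) = 0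
    rw [← h2, map_zero]
  rw [Units.inv_mul, map_one] at h4
  exact h4

/-- **Over `K` the homologically trivial correspondences are nilpotent.** -/
theorem isNilpotent (h : Cohomology G c R H) (hv : h.van ≠ ⊥) {W O Y : Type*} [AddCommGroup W] [Module ℚ W]
    [AddCommGroup O] [Module ℚ O] [AddCommGroup Y] [Module ℚ Y] (F : UniversalFamily c G W O Y)
    (t : T) (ht : ∀ g : G, g • t = t) (h0 : h.act t = 0) : IsNilpotent t := by
  obtain ⟨x, z, h1, rfl⟩ := h.exists_eq_of_act hv F t ht h0
  obtain ⟨n, hn⟩ := c.aug_nil z h1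
  obtain ⟨y, hy⟩ := pow_eq c x z (n + 1)
  rw [pow_succ z, hn, zero_mul, map_zero, add_zero] at hy
  have h2 : h.act (lin c y) = 0 := by
    rw [← hy, map_pow, h0, zero_pow (Nat.succ_ne_zero n)]
  refine ⟨(n + 1) * 3, ?_⟩
  rw [pow_mul, hy, pow_succ, pow_two, lin_cube h y h2]

/-- **Homologically trivial correspondences over finite extensions are radical.** -/
theorem isUnit_one_sub [Finite G] (h : Cohomology G c R H) (hv : h.van ≠ ⊥) {W O Y : Type*} [AddCommGroup W]
    [Module ℚ W] [AddCommGroup O] [Module ℚ O] [AddCommGroup Y] [Module ℚ Y]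
    (F : UniversalFamily c G W O Y) (t : T) (h0 : h.act t = 0) : IsUnit (1 - t) := by
  refine OrlovCI.isUnit_one_sub (G := G) (R := RingHom.ker h.act) ?_ ?_ ?_ h0
  · have h1 : IsUnit (algebraMap ℚ T (Nat.card G : ℚ)) := by
      apply IsUnit.map
      have : Nat.card G ≠ 0 := Nat.card_pos.ne'
      exact isUnit_iff_ne_zero.2 (by exact_mod_cast this)
    rwa [map_natCast] at h1
  · intro g r hr
    exact h.act_smul g r hr
  · intro r hr hG
    exact (h.isNilpotent hv F r hG hr).isUnit_one_sub

end Cohomology

end

end Pool.Agent.Lib.OrlovCI
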