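import Pool.Agent.Lib.OrlovCI.Main

/-!
# Duality
-/

set_option autoImplicit false

open CategoryTheory CategoryTheory.Limits

namespace Pool.Agent.Lib.OrlovCI

open Pool.Agent.Lib.MP_5c0b30_ag Pool.Agent.Lib.OrlovCurves

universe v u

variable {C : Type u} [Category.{v} C] [Preadditive C]

/-- a duality is additive -/
lemma additive_dual [HasBinaryBiproducts C] (Θ : Cᵒᵖ ≌ C) : Θ.functor.Additive := by
  exact Functor.additive_of_preserves_binary_products Θ.functor

/-- the dual of a local object is local -/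
lemma loc_dual [HasBinaryBiproducts C] (Θ : Cᵒᵖ ≌ C) {A : C} (hA : Loc A) :
    Loc (Θ.functor.obj (Opposite.op A)) := by
  have hadd := additive_dual Θ
  constructor
  · intro h
    have h1 : IsIso (Θ.functor.map (0 : A ⟶ A).op) := by
      rw [op_zero, Functor.map_zero]
      exact h
    have h2 : IsIso (0 : A ⟶ A).op := isIso_of_reflects_iso _ Θ.functor
    have h3 : IsIso (0 : A ⟶ A).op.unop := inferInstance
    exact hA.1 h3
  · intro f
    obtain ⟨g, hg⟩ := Θ.functor.map_surjective f
    rcases hA.2 g.unop with h | h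
    · left
      have h1 : IsIso g.unop.op := inferInstance
      rw [← hg]
      exact (inferInstance : IsIso (Θ.functor.map g.unop.op))
    · right
      have h1 : IsIso (𝟙 A - g.unop).op := inferInstance
      have h2 : 𝟙 (Θ.functor.obj (Opposite.op A)) - f = Θ.functor.map (𝟙 A - g.unop).op := by
        rw [← hg, op_sub, Functor.map_sub, op_id]
        congr 1
        exact (Θ.functor.map_id _).symm
      rw [h2]
      infer_instance

/-- objects with isomorphic duals are isomorphic -/
lemma iso_of_dual (Θ : Cᵒᵖ ≌ C) {A B : C}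
    (h : Nonempty (Θ.functor.obj (Opposite.op A) ≅ Θ.functor.obj (Opposite.op B))) :
    Nonempty (A ≅ B) := by
  obtain ⟨e⟩ := h
  exact ⟨(Θ.functor.preimageIso e).unop.symm⟩

/-- the image of a local direct summand of a self-dual object -/
theorem dual_summand [HasBinaryBiproducts C] (Θ : Cᵒᵖ ≌ C) {N M Z : C} (hN : Loc N)
    (hZ : 𝟙 Z = 0) {μ : Type} [Fintype μ] {B : μ → C} (hB : ∀ k, Loc (B k)) (d : Dec M Z B)
    (hM : Nonempty (Θ.functor.obj (Opposite.op M) ≅ M)) (hNM : ∃ k, Nonempty (N ≅ B k)) :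
    ∃ k, Nonempty (Θ.functor.obj (Opposite.op N) ≅ B k) := by
  obtain ⟨k, hk⟩ := hNM
  have h1 : IsSummand (fun _ : Fin 1 => N) M := by
    rw [mult_iff hZ hN hB d 1]
    have : Nonempty {k // Nonempty (N ≅ B k)} := ⟨⟨k, hk⟩⟩
    exact Nat.card_pos
  have h2 := (summand_selfdual Θ hM ⟨Iso.refl _⟩ 1).1 h1
  rw [mult_iff hZ (loc_dual Θ hN) hB d 1] at h2
  obtain ⟨⟨l, hl⟩⟩ := (Nat.card_pos_iff.1 h2).1
  exact ⟨l, hl⟩

end Pool.Agent.Lib.OrlovCI
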