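import Mathlib

/-!
# Radical descent

`S` is a ring with a finite group `G` of automorphisms, the order of `G` is invertible in `S`, and
`R` is a `G`-stable left ideal. If `1 - r` is invertible for all `G`-invariant `r` in `R`, then
`1 - r` is invertible for all `r` in `R`.
-/

set_option autoImplicit false

namespace Pool.Agent.Lib.OrlovCI

variable {S : Type*} [Ring S] {G : Type*} [Group G] [MulSemiringAction G S]

/-- The translate of a left ideal. -/
def tr (m : Ideal S) (g : G) : Ideal S where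
  carrier := {x | g⁻¹ • x ∈ m}
  add_mem' := by
    intro a b ha hb
    simp only [Set.mem_ofPred_eq, smul_add] at *
    exact m.add_mem ha hb
  zero_mem' := by simp
  smul_mem' := by
    intro c x hx
    simp only [Set.mem_ofPred_eq, smul_eq_mul, smul_mul'] at *
    exact m.mul_mem_left _ hx

theorem mem_tr {m : Ideal S} {g : G} {x : S} : x ∈ tr m g ↔ g⁻¹ • x ∈ m := Iff.rfl

theorem tr_isCoatom {m : Ideal S} (hm : IsCoatom m) (g : G) : IsCoatom (tr m g) := by
  constructor
  · intro h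
    apply hm.1
    rw [Ideal.eq_top_iff_one] at h ⊢
    rw [mem_tr] at h
    simpa using h
  · intro b hb
    have h1 : m < tr b g⁻¹ := by
      rw [SetLike.lt_iff_le_and_exists] at hb ⊢
      constructor
      · intro x hx
        rw [mem_tr]
        apply hb.1
        rw [mem_tr]
        simpa using hx
      · obtain ⟨x, hx, hx'⟩ := hb.2
        refine ⟨g⁻¹ • x, ?_, ?_⟩
        · rw [mem_tr]
          simpa using hx
        · simpa [mem_tr] using hx'
    have h2 := hm.2 _ h1
    rw [Ideal.eq_top_iff_one] at h2 ⊢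
    rw [mem_tr] at h2
    simpa using h2

/-- In a ring whose quotient by the left ideal `a` is a semisimple module, every left ideal `R` has
an element `c` which acts as a right unit modulo `a`. -/
theorem exists_unit_mod {R a : Ideal S} (h : IsSemisimpleModule S (S ⧸ a)) :
    ∃ c ∈ R, ∀ x ∈ R, x * c - x ∈ a := by
  obtain ⟨D, hD⟩ := exists_isCompl (Submodule.map a.mkQ R : Submodule S (S ⧸ a))
  have h1 : (a.mkQ (1 : S)) ∈ (Submodule.map a.mkQ R) ⊔ D := by
    rw [hD.sup_eq_top]; trivial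
  obtain ⟨u, hu, d, hd, hud⟩ := Submodule.mem_sup.1 h1
  obtain ⟨c, hc, rfl⟩ := hu
  refine ⟨c, hc, fun x hx => ?_⟩
  have h2 : x • d ∈ (Submodule.map a.mkQ R) ⊓ D := by
    refine ⟨?_, D.smul_mem x hd⟩
    have h3 : x • d = a.mkQ (x - x * c) := by
      have h4 : d = a.mkQ (1 : S) - a.mkQ c := by
        rw [← hud]; abel
      rw [h4, smul_sub, ← map_smul, ← map_smul, smul_eq_mul, smul_eq_mul, mul_one, ← map_sub]
    rw [h3]
    exact ⟨_, R.sub_mem hx (R.mul_mem_left x hc), rfl⟩
  rw [hD.inf_eq_bot] at h2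
  have h5 : x • d = 0 := h2
  have h4 : d = a.mkQ (1 : S) - a.mkQ c := by
    rw [← hud]; abel
  rw [h4, smul_sub, ← map_smul, ← map_smul, smul_eq_mul, smul_eq_mul, mul_one, ← map_sub] at h5
  have h6 : x - x * c ∈ a := by
    rw [Submodule.mkQ_apply, Submodule.Quotient.mk_eq_zero] at h5
    exact h5
  have h7 := a.neg_mem h6
  rwa [neg_sub] at h7

theorem isSemisimple_iInf [Finite G] {m : Ideal S} (hm : IsCoatom m) :
    IsSemisimpleModule S (S ⧸ (⨅ g : G, tr m g)) := by
  have hs : ∀ g : G, IsSimpleModule S (S ⧸ tr m g) := fun g =>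
    isSimpleModule_iff_isCoatom.2 (tr_isCoatom hm g)
  let f : S →ₗ[S] (∀ g : G, S ⧸ tr m g) := LinearMap.pi (fun g => (tr m g).mkQ)
  have hker : LinearMap.ker f = ⨅ g : G, tr m g := by
    rw [LinearMap.ker_pi]
    simp
  have hinj : Function.Injective ((⨅ g : G, tr m g).liftQ f (le_of_eq hker.symm)) := by
    rw [← LinearMap.ker_eq_bot, Submodule.ker_liftQ_eq_bot]
    exact le_of_eq hker
  have : IsSemisimpleModule S (∀ g : G, S ⧸ tr m g) := inferInstance
  exact IsSemisimpleModule.of_injective _ hinj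

/-- Radical descent, in terms of maximal left ideals. -/
theorem le_of_isCoatom [Finite G] (hG : IsUnit ((Nat.card G : ℕ) : S)) {R : Ideal S}
    (hR : ∀ (g : G), ∀ r ∈ R, g • r ∈ R)
    (hq : ∀ r ∈ R, (∀ g : G, g • r = r) → IsUnit (1 - r)) {m : Ideal S} (hm : IsCoatom m) :
    R ≤ m := by
  classical
  have := Fintype.ofFinite G
  set a : Ideal S := ⨅ g : G, tr m g with ha
  have haG : ∀ (g : G), ∀ x ∈ a, g • x ∈ a := by
    intro g x hx
    rw [ha, Ideal.mem_iInf] at hx ⊢
    intro h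
    have := hx (g⁻¹ * h)
    rw [mem_tr] at this ⊢
    rw [smul_smul]
    simpa using this
  obtain ⟨c, hc, hca⟩ := exists_unit_mod (R := R) (isSemisimple_iInf (G := G) hm)
  rw [← ha] at hca
  obtain ⟨n, hn⟩ := hG
  have hcomm : ∀ x : S, (↑n⁻¹ : S) * x = x * (↑n⁻¹ : S) := by
    intro x
    have h1 : (n : S) * x = x * (n : S) := by
      rw [hn]
      exact (Nat.cast_commute (Nat.card G) x).eq
    calc (↑n⁻¹ : S) * x = ↑n⁻¹ * (x * n) * ↑n⁻¹ := by
          rw [mul_assoc, mul_assoc, Units.mul_inv, mul_one]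
      _ = ↑n⁻¹ * (n * x) * ↑n⁻¹ := by rw [h1]
      _ = x * (↑n⁻¹ : S) := by rw [← mul_assoc, Units.inv_mul, one_mul]
  set c' : S := (↑n⁻¹ : S) * ∑ g : G, g • c with hc'
  have hc'R : c' ∈ R := R.mul_mem_left _ (R.sum_mem fun g _ => hR g c hc)
  have hgn : ∀ g : G, g • (↑n⁻¹ : S) = ↑n⁻¹ := by
    intro g
    have h1 : g • (n : S) = (n : S) := by
      rw [hn]
      exact map_natCast (MulSemiringAction.toRingHom G S g) _
    have h2 : (g • (↑n⁻¹ : S)) * (n : S) = 1 := by
      calc (g • (↑n⁻¹ : S)) * (n : S) = (g • (↑n⁻¹ : S)) * (g • (n : S)) := by rw [h1]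
        _ = 1 := by rw [← smul_mul', Units.inv_mul, smul_one]
    calc g • (↑n⁻¹ : S) = (g • (↑n⁻¹ : S)) * (n * ↑n⁻¹) := by rw [Units.mul_inv, mul_one]
      _ = ↑n⁻¹ := by rw [← mul_assoc, h2, one_mul]
  have hc'G : ∀ g : G, g • c' = c' := by
    intro g
    rw [hc', smul_mul', hgn, Finset.smul_sum]
    congr 1
    simp only [smul_smul]
    exact Fintype.sum_equiv (Equiv.mulLeft g) _ _ (fun _ => rfl)
  have hx : ∀ x ∈ R, x * c' - x ∈ a := by
    intro x hx
    have h1 : ∀ g : G, x * (g • c) - x ∈ a := by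
      intro g
      have h2 := haG g _ (hca (g⁻¹ • x) (hR g⁻¹ x hx))
      rw [smul_sub, smul_mul', smul_inv_smul] at h2
      exact h2
    have h3 : x * c' - x = ↑n⁻¹ * ∑ g : G, (x * (g • c) - x) := by
      rw [Finset.sum_sub_distrib, Finset.sum_const, Finset.card_univ, ← Nat.card_eq_fintype_card,
        nsmul_eq_mul, ← hn, mul_sub, ← mul_assoc (↑n⁻¹ : S) (n : S), Units.inv_mul, one_mul,
        ← Finset.mul_sum, hc', ← mul_assoc, ← mul_assoc, hcomm x]
    rw [h3]
    exact a.mul_mem_left _ (a.sum_mem fun g _ => h1 g)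
  obtain ⟨v, hv⟩ := hq c' hc'R hc'G
  have hc'a : c' ∈ a := by
    have h1 := a.neg_mem (hx c' hc'R)
    have h2 : -(c' * c' - c') = (v : S) * c' := by rw [hv]; noncomm_ring
    rw [h2] at h1
    have h3 := a.mul_mem_left (↑v⁻¹ : S) h1
    rwa [← mul_assoc, Units.inv_mul, one_mul] at h3
  intro x hxR
  have h1 : x ∈ a := by
    have h2 := a.sub_mem (a.mul_mem_left x hc'a) (hx x hxR)
    simpa using h2
  have h2 := (Ideal.mem_iInf.1 h1) (1 : G)
  rw [mem_tr] at h2
  simpa using h2

/-- **Radical descent.** -/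
theorem isUnit_one_sub [Finite G] (hG : IsUnit ((Nat.card G : ℕ) : S)) {R : Ideal S}
    (hR : ∀ (g : G), ∀ r ∈ R, g • r ∈ R)
    (hq : ∀ r ∈ R, (∀ g : G, g • r = r) → IsUnit (1 - r)) {r : S} (hr : r ∈ R) :
    IsUnit (1 - r) := by
  have left : ∀ x ∈ R, ∃ u : S, u * (1 - x) = 1 := by
    intro x hx
    by_contra hcon
    have h1 : Ideal.span {1 - x} ≠ (⊤ : Ideal S) := by
      intro h
      rw [Ideal.eq_top_iff_one, Ideal.mem_span_singleton'] at h
      exact hcon h
    obtain ⟨m, hm, hle⟩ := Ideal.exists_le_maximal _ h1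
    have h2 : x ∈ m := le_of_isCoatom hG hR hq hm.out hx
    have h3 : (1 - x) ∈ m := hle (Ideal.subset_span rfl)
    apply hm.ne_top
    rw [Ideal.eq_top_iff_one]
    have := m.add_mem h3 h2
    simpa using this
  obtain ⟨u, hu⟩ := left r hr
  have hu' : u = 1 - (-(u * r)) := by
    have : u * 1 - u * r = 1 := by rw [← mul_sub]; exact hu
    rw [mul_one] at this
    rw [sub_neg_eq_add, ← this]
    abel
  obtain ⟨w, hw⟩ := left (-(u * r)) (R.neg_mem (R.mul_mem_left u hr))
  rw [← hu'] at hw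
  have h4 : w = 1 - r := by
    calc w = w * (u * (1 - r)) := by rw [hu, mul_one]
      _ = 1 - r := by rw [← mul_assoc, hw, one_mul]
  rw [h4] at hw
  exact ⟨⟨1 - r, u, hw, hu⟩, rfl⟩

end Pool.Agent.Lib.OrlovCI
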