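import Pool.Agent.Lib.OrlovCI.Defs
import Pool.Agent.Lib.OrlovCI.Maschke
import Pool.Agent.Lib.OrlovCurves.Final
import Mathlib.LinearAlgebra.FiniteDimensional.Basic

/-!
# The endomorphisms of the variable part
-/

set_option autoImplicit false

open CategoryTheory CategoryTheory.Limits

namespace Pool.Agent.Lib.OrlovCI

open Pool.Agent.Lib.MP_5c0b30_ag Pool.Agent.Lib.OrlovCurves

universe v u

namespace Family

variable {C : Type u} [Category.{v} C] [Preadditive C] [HasShift C ℤ] {N : C}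
  {T : Type*} [Ring T] [Algebra ℚ T] {G : Type*} [Group G] [Finite G] [MulSemiringAction G T]
  {U : Subgroup G} {D : Type*} [DivisionRing D] [Algebra ℚ D]

/-- radical descent -/
theorem isUnit_one_sub_of_act (F : Family N T G U D) {t : T} (ht : F.act t = 0) :
    IsUnit (1 - t) := by
  refine isUnit_one_sub (G := G) (R := RingHom.ker F.act) ?_ ?_ ?_ ht
  · have h1 : IsUnit (algebraMap ℚ T (Nat.card G : ℚ)) := by
      apply IsUnit.map
      have : Nat.card G ≠ 0 := Nat.card_pos.ne'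
      exact isUnit_iff_ne_zero.2 (by exact_mod_cast this)
    rwa [map_natCast] at h1
  · intro g r hr
    exact F.act_smul g r hr
  · intro r hr hG
    exact (F.nilpotent r hG hr).isUnit_one_sub

omit [Finite G] in
lemma smul_algebraMap' (g : G) (q : ℚ) : g • (algebraMap ℚ T q) = algebraMap ℚ T q := by
  have h := RingHom.congr_fun (Subsingleton.elim
    ((MulSemiringAction.toRingHom G T g).comp (algebraMap ℚ T)) (algebraMap ℚ T)) q
  exact h

/-- the image of the `U`-invariant elements -/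
def invRange (F : Family N T G U D) : Subalgebra ℚ D where
  carrier := {d | ∃ t : T, (∀ g ∈ U, g • t = t) ∧ F.act t = d}
  mul_mem' := by
    rintro _ _ ⟨s, hs, rfl⟩ ⟨t, ht, rfl⟩
    exact ⟨s * t, fun g hg => by rw [smul_mul', hs g hg, ht g hg], map_mul _ _ _⟩
  add_mem' := by
    rintro _ _ ⟨s, hs, rfl⟩ ⟨t, ht, rfl⟩
    exact ⟨s + t, fun g hg => by rw [smul_add, hs g hg, ht g hg], map_add _ _ _⟩
  algebraMap_mem' q := ⟨algebraMap ℚ T q, fun g _ => smul_algebraMap' g q, F.act.commutes q⟩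

theorem isUnit_of_act (F : Family N T G U D) [FiniteDimensional ℚ D] {t : T}
    (hU : ∀ g ∈ U, g • t = t) (ht : F.act t ≠ 0) : IsUnit t := by
  obtain ⟨⟨y, s, hs, hsy⟩, hy⟩ := FiniteDimensional.exists_mul_eq_one ℚ
    (x := (⟨F.act t, t, hU, rfl⟩ : F.invRange)) (fun h => ht (congrArg Subtype.val h))
  have h1 : F.act t * F.act s = 1 := by
    rw [hsy]
    exact congrArg Subtype.val hy
  have h2 : F.act s * F.act t = 1 := mul_eq_one_comm.1 h1
  have h3 : IsUnit (t * s) := by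
    have h4 := F.isUnit_one_sub_of_act (t := 1 - t * s) (by rw [map_sub, map_one, map_mul, h1,
      sub_self])
    rwa [sub_sub_cancel] at h4
  have h5 : IsUnit (s * t) := by
    have h4 := F.isUnit_one_sub_of_act (t := 1 - s * t) (by rw [map_sub, map_one, map_mul, h2,
      sub_self])
    rwa [sub_sub_cancel] at h4
  obtain ⟨a, ha⟩ := h3
  obtain ⟨b, hb⟩ := h5
  have h6 : t * (s * ↑a⁻¹) = 1 := by rw [← mul_assoc, ← ha, Units.mul_inv]
  have h7 : (↑b⁻¹ * s) * t = 1 := by rw [mul_assoc, ← hb, Units.inv_mul]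
  have h8 : (↑b⁻¹ * s) = s * ↑a⁻¹ := left_inv_eq_right_inv h7 h6
  exact ⟨⟨t, s * ↑a⁻¹, h6, by rw [← h8]; exact h7⟩, rfl⟩

omit [Finite G] [Algebra ℚ T] in
/-- inverses of invariant elements are invariant -/
lemma inv_invariant {t w : T} (g : G) (ht : g • t = t) (h1 : t * w = 1) (h2 : w * t = 1) :
    g • w = w := by
  have h3 : t * (g • w) = 1 := by
    calc t * (g • w) = (g • t) * (g • w) := by rw [ht]
      _ = 1 := by rw [← smul_mul', h1, smul_one]
  exact (left_inv_eq_right_inv h2 h3).symm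

variable [∀ n : ℤ, (shiftFunctor C n).Additive]

omit [Finite G] [∀ n : ℤ, (shiftFunctor C n).Additive] in
/-- comparison of the components of degree `0` -/
lemma zero_eq (F : Family N T G U D) (f : ∀ n : ℤ, N ⟶ N⟦n⟧) (hf : {n | f n ≠ 0}.Finite)
    (h : ∑ᶠ n, F.ext n (f n) = 1) : f 0 = ShiftedHom.mk₀ 0 rfl (𝟙 N) := by
  classical
  let g : ∀ n : ℤ, N ⟶ N⟦n⟧ := fun n => if h : n = 0 then
    ShiftedHom.mk₀ n h (𝟙 N) else 0
  have hg : {n | g n ≠ 0}.Finite := by
    refine (Set.finite_singleton (0 : ℤ)).subset (fun n hn => ?_)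
    by_contra h1
    exact hn (dif_neg h1)
  have hg1 : ∑ᶠ n, F.ext n (g n) = 1 := by
    rw [finsum_eq_single _ 0 (fun n hn => by
      have : g n = 0 := dif_neg hn
      rw [this, map_zero])]
    have : g 0 = ShiftedHom.mk₀ 0 rfl (𝟙 N) := dif_pos rfl
    rw [this]
    exact F.ext_id
  have hs : ∀ k : ∀ n : ℤ, N ⟶ N⟦n⟧, {n | k n ≠ 0}.Finite →
      (Function.support (fun n => F.ext n (k n))).Finite := by
    intro k hk
    refine hk.subset (fun n hn h0 => hn ?_)
    change F.ext n (k n) = 0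
    rw [h0, map_zero]
  have h1 : ∑ᶠ n, F.ext n (f n - g n) = 0 := by
    simp only [map_sub]
    rw [finsum_sub_distrib (hs f hf) (hs g hg), h, hg1, sub_self]
  have h2 := F.unique (fun n => f n - g n) ((hf.union hg).subset (fun n hn => by
    by_contra h3
    simp only [Set.mem_union, Set.mem_ofPred_eq, not_or, not_not] at h3
    exact hn (by simp only [h3.1, h3.2, sub_self]))) h1
  have h3 := congrFun h2 0
  have h4 : f 0 - g 0 = 0 := h3
  rw [sub_eq_zero] at h4
  rw [h4]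
  exact dif_pos rfl

omit [Finite G] [∀ n : ℤ, (shiftFunctor C n).Additive] in
lemma fin_supp (F : Family N T G U D) (k : ∀ n : ℤ, N ⟶ N⟦n⟧) (hk : {n | k n ≠ 0}.Finite) :
    (Function.support (fun n => F.ext n (k n))).Finite := by
  refine hk.subset (fun n hn h0 => hn ?_)
  change F.ext n (k n) = 0
  rw [h0, map_zero]

omit [Finite G] in
/-- an endomorphism of `N` that becomes invertible in `T` is invertible -/
theorem isIso_of_isUnit (F : Family N T G U D) (f : N ⟶ N)
    (h : IsUnit (F.ext 0 (ShiftedHom.mk₀ 0 rfl f))) : IsIso f := by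
  obtain ⟨a, ha⟩ := h
  set t := F.ext 0 (ShiftedHom.mk₀ 0 rfl f) with ht
  have h1 : t * ↑a⁻¹ = 1 := by rw [← ha, Units.mul_inv]
  have h2 : ↑a⁻¹ * t = 1 := by rw [← ha, Units.inv_mul]
  obtain ⟨w, hw, hw'⟩ := F.descent (↑a⁻¹ : T)
    (fun g hg => inv_invariant g (F.invariant g hg 0 _) h1 h2)
  have h3 : t * ↑a⁻¹ = ∑ᶠ n, F.ext n (f ≫ w n) := by
    rw [hw', mul_finsum' _ _ (F.fin_supp w hw)]
    refine finsum_congr (fun n => ?_)
    rw [ht, ← F.ext_comp (c := n) _ _ (add_zero n), ShiftedHom.mk₀_comp]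
  have h4 : ↑a⁻¹ * t = ∑ᶠ n, F.ext n (w n ≫ f⟦n⟧') := by
    rw [hw', finsum_mul' _ _ (F.fin_supp w hw)]
    refine finsum_congr (fun n => ?_)
    rw [ht, ← F.ext_comp (c := n) _ _ (zero_add n), ShiftedHom.comp_mk₀]
  have h5 := F.zero_eq (fun n => f ≫ w n) (hw.subset (fun n hn h0 => hn (by
    change f ≫ w n = 0
    rw [h0, comp_zero]))) (by rw [← h3, h1])
  have h6 := F.zero_eq (fun n => w n ≫ f⟦n⟧') (hw.subset (fun n hn h0 => hn (by
    change w n ≫ f⟦n⟧' = 0
    rw [h0, zero_comp]))) (by rw [← h4, h2])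
  change f ≫ w 0 = _ at h5
  change w 0 ≫ f⟦(0 : ℤ)⟧' = _ at h6
  rw [mk₀_eq, Category.id_comp] at h5 h6
  refine ⟨w 0 ≫ (z0 N).hom, ?_, ?_⟩
  · rw [← Category.assoc, h5, Iso.inv_hom_id]
  · have h7 : f⟦(0 : ℤ)⟧' ≫ (z0 N).hom = (z0 N).hom ≫ f :=
      (shiftFunctorZero C ℤ).hom.naturality f
    rw [Category.assoc, ← h7, ← Category.assoc, h6, Iso.inv_hom_id]

omit [Finite G] [∀ n : ℤ, (shiftFunctor C n).Additive] in
lemma one_ne_zero' (F : Family N T G U D) : (𝟙 N : N ⟶ N) ≠ 0 := by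
  intro h
  have h1 : F.ext 0 (ShiftedHom.mk₀ 0 rfl (𝟙 N)) = 0 := by
    have h2 : ShiftedHom.mk₀ (0 : ℤ) rfl (𝟙 N) = 0 := by
      rw [mk₀_eq, h, zero_comp]
    rw [h2, map_zero]
  rw [F.ext_id] at h1
  have h3 := congrArg F.act h1
  rw [map_one, map_zero] at h3
  exact one_ne_zero h3

/-- `N` is a local object -/
theorem loc (F : Family N T G U D) [FiniteDimensional ℚ D] : Loc N := by
  constructor
  · intro h
    apply F.one_ne_zero'
    have h1 := IsIso.hom_inv_id (0 : N ⟶ N)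
    rw [zero_comp] at h1
    exact h1.symm
  · intro f
    by_cases h : F.act (F.ext 0 (ShiftedHom.mk₀ 0 rfl f)) = 0
    · right
      apply F.isIso_of_isUnit
      apply F.isUnit_of_act (fun g hg => F.invariant g hg _ _)
      have h1 : ShiftedHom.mk₀ (0 : ℤ) rfl (𝟙 N - f) = ShiftedHom.mk₀ (0 : ℤ) rfl (𝟙 N) -
          ShiftedHom.mk₀ (0 : ℤ) rfl f := by
        rw [mk₀_eq, mk₀_eq, mk₀_eq, Preadditive.sub_comp]
      rw [h1, map_sub, map_sub, h, F.ext_id, map_one, sub_zero]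
      exact one_ne_zero
    · left
      apply F.isIso_of_isUnit
      exact F.isUnit_of_act (fun g hg => F.invariant g hg _ _) h

omit [Finite G] [∀ n : ℤ, (shiftFunctor C n).Additive] in
/-- `N` is not isomorphic to a nontrivial twist -/
theorem free (F : Family N T G U D) (n : ℤ) (hn : n ≠ 0) : IsEmpty (N ≅ N⟦n⟧) := by
  constructor
  intro e
  -- the inverse as a morphism `N ⟶ N⟦-n⟧`
  let ψ : N ⟶ N⟦-n⟧ := (shiftFunctorCompIsoId C n (-n) (by omega)).inv.app N ≫ (e.inv)⟦-n⟧'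
  have h1 : ShiftedHom.comp ψ (show N ⟶ N⟦n⟧ from e.hom) (add_neg_cancel n) =
      ShiftedHom.mk₀ 0 rfl (𝟙 N) := by
    rw [ShiftedHom.comp, mk₀_eq, Category.id_comp]
    change ((shiftFunctorCompIsoId C n (-n) _).inv.app N ≫ (e.inv)⟦-n⟧') ≫ e.hom⟦-n⟧' ≫ _ = _
    rw [Category.assoc, ← Functor.map_comp_assoc, e.inv_hom_id, CategoryTheory.Functor.map_id,
      Category.id_comp]
    simp [shiftFunctorCompIsoId]
  have h2 := congrArg (F.ext 0) h1
  rw [F.ext_comp, F.ext_id] at h2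
  have h3 := congrArg F.act h2
  rw [map_mul, F.act_ext n hn, mul_zero, map_one] at h3
  exact zero_ne_one h3

end Family

end Pool.Agent.Lib.OrlovCI
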