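import Pool.Agent.Lib.OrlovCI.Orbit

/-!
# Assembly
-/

set_option autoImplicit false

open CategoryTheory CategoryTheory.Limits ZeroObject

namespace Pool.Agent.Lib.OrlovCI

open Pool.Agent.Lib.MP_5c0b30_ag Pool.Agent.Lib.OrlovCurves

universe v u

variable {C : Type u} [Category.{v} C] [Preadditive C] {𝒜 : C → Prop}

section

variable [HasShift C ℤ] [∀ n : ℤ, (shiftFunctor C n).Additive]

omit [Preadditive C] [∀ n : ℤ, (shiftFunctor C n).Additive] in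
lemma card_shift_zero {ν : Type} (E : ν → C) (A : C) :
    Nat.card {k // Nonempty (A⟦(0 : ℤ)⟧ ≅ E k)} = Nat.card {k // Nonempty (A ≅ E k)} := by
  refine Nat.card_congr (Equiv.subtypeEquivRight (fun k => ?_))
  exact ⟨fun ⟨a⟩ => ⟨((shiftFunctorZero C ℤ).app A).symm ≪≫ a⟩,
    fun ⟨a⟩ => ⟨(shiftFunctorZero C ℤ).app A ≪≫ a⟩⟩

/-- the multiplicities of a piece whose multiplicities are known up to duality -/
theorem card_eq_of_knownMult (h𝒜 : IsPieces 𝒜) {A M M' Z Z' : C} (hA : 𝒜 A)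
    (e : OrbitEquiv M M') (hZ : 𝟙 Z = 0) (hZ' : 𝟙 Z' = 0) {μ μ' : Type} [Fintype μ] [Fintype μ']
    {B : μ → C} {B' : μ' → C} (hB : ∀ k, 𝒜 (B k)) (hB' : ∀ k, 𝒜 (B' k)) (d : Dec M Z B)
    (d' : Dec M' Z' B') (Θ : Cᵒᵖ ≌ C) (hM : Nonempty (Θ.functor.obj (Opposite.op M) ≅ M))
    (hM' : Nonempty (Θ.functor.obj (Opposite.op M') ≅ M')) (h : KnownMult Θ A M M') (i : ℤ) :
    Nat.card {k // Nonempty (A⟦i⟧ ≅ B k)} = Nat.card {k // Nonempty (A⟦i⟧ ≅ B' k)} := by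
  have hl : ∀ i : ℤ, Loc (A⟦i⟧) := fun i => h𝒜.loc (h𝒜.shift A hA i)
  have hBl : ∀ k, Loc (B k) := fun k => h𝒜.loc (hB k)
  have hBl' : ∀ k, Loc (B' k) := fun k => h𝒜.loc (hB' k)
  rcases h with h | ⟨n, hn⟩
  · exact card_eq_of_le h𝒜 hA e hZ hZ' hB hB' d d'
      (fun i => card_le_of_summand hZ hZ' (hl i) hBl hBl' d d' (h i)) i
  · let c : ℤ → ℤ := fun i => (Nat.card {k // Nonempty (A⟦i⟧ ≅ B k)} : ℤ) -
      (Nat.card {k // Nonempty (A⟦i⟧ ≅ B' k)} : ℤ)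
    have hc : ∀ i, c i = 0 ∨ c i = c n := by
      intro i
      rcases hn i with h1 | rfl | h1
      · left
        have h2 := card_eq_of_sameMult' hZ hZ' (hl i) hBl hBl' d d' h1
        simp only [c]
        omega
      · right
        rfl
      · right
        have h2 := card_dual hZ (hl n) (hl i) hBl d Θ hM h1
        have h3 := card_dual hZ' (hl n) (hl i) hBl' d' Θ hM' h1
        simp only [c]
        omega
    obtain ⟨S, hS, -, hsum⟩ := exists_sum_eq h𝒜 hA e hZ hZ' hB hB' d d' {n}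
    have hT : ∑ i ∈ S, c i = 0 := by
      simp only [c]
      rw [Finset.sum_sub_distrib, ← Nat.cast_sum, ← Nat.cast_sum, hsum, sub_self]
    have h0 := all_zero c n hc S (hS (Finset.mem_singleton_self n)) hT i
    simp only [c] at h0
    omega

/-- the multiplicities of the twists of `N`: total multiplicity one and duality -/
theorem card_eq_of_one (h𝒜 : IsPieces 𝒜) {N M M' Z Z' : C} (hN : 𝒜 N) (e : OrbitEquiv M M')
    (hZ : 𝟙 Z = 0) (hZ' : 𝟙 Z' = 0) {μ μ' : Type} [Fintype μ] [Fintype μ']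
    {B : μ → C} {B' : μ' → C} (hB : ∀ k, 𝒜 (B k)) (hB' : ∀ k, 𝒜 (B' k)) (d : Dec M Z B)
    (d' : Dec M' Z' B') (Θ : Cᵒᵖ ≌ C)
    (hM' : Nonempty (Θ.functor.obj (Opposite.op M') ≅ M'))
    (hΘ : ∀ i : ℤ, Nonempty (N⟦-i⟧ ≅ Θ.functor.obj (Opposite.op (N⟦i⟧))))
    (h1 : Nat.card {k // Nonempty (N⟦(0 : ℤ)⟧ ≅ B k)} = 1)
    (h2 : ∀ i : ℤ, i ≠ 0 → Nat.card {k // Nonempty (N⟦i⟧ ≅ B k)} = 0) (i : ℤ) :
    Nat.card {k // Nonempty (N⟦i⟧ ≅ B k)} = Nat.card {k // Nonempty (N⟦i⟧ ≅ B' k)} := by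
  classical
  have hl : ∀ i : ℤ, Loc (N⟦i⟧) := fun i => h𝒜.loc (h𝒜.shift N hN i)
  have hBl' : ∀ k, Loc (B' k) := fun k => h𝒜.loc (hB' k)
  set c : ℤ → ℕ := fun i => Nat.card {k // Nonempty (N⟦i⟧ ≅ B' k)} with hc
  have hdual : ∀ i, c i = c (-i) := fun i =>
    card_dual hZ' (hl i) (hl (-i)) hBl' d' Θ hM' (hΘ i)
  have hne : ∀ i : ℤ, i ≠ 0 → c i = 0 := by
    intro i hi
    by_contra hci
    obtain ⟨S, hS, -, hsum⟩ := exists_sum_eq h𝒜 hN e hZ hZ' hB hB' d d' {0, i, -i}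
    have h3 : ∑ b ∈ S, Nat.card {k // Nonempty (N⟦b⟧ ≅ B k)} = 1 := by
      rw [Finset.sum_eq_single_of_mem 0 (hS (by simp)) (fun b _ hb => h2 b hb), h1]
    rw [h3] at hsum
    have h4 : ({i, -i} : Finset ℤ) ⊆ S := fun x hx => hS (by
      simp only [Finset.mem_insert, Finset.mem_singleton] at hx ⊢
      exact Or.inr hx)
    have h5 := Finset.sum_le_sum_of_subset (f := c) h4
    rw [Finset.sum_pair (by omega), ← hdual i] at h5
    simp only [hc] at h5 hci hsum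
    omega
  by_cases hi : i = 0
  · subst hi
    obtain ⟨S, hS, -, hsum⟩ := exists_sum_eq h𝒜 hN e hZ hZ' hB hB' d d' {0}
    rw [Finset.sum_eq_single_of_mem 0 (hS (by simp)) (fun b _ hb => h2 b hb),
      Finset.sum_eq_single_of_mem 0 (hS (by simp)) (fun b _ hb => hne b hb)] at hsum
    exact hsum
  · rw [h2 i hi]
    exact (hne i hi).symm

end

variable [HasFiniteBiproducts C] [HasBinaryBiproducts C]

/-- the decomposition given by an isomorphism -/
noncomputable def decOfIso {M N : C} {m : ℕ} {B : Fin m → C} (e : M ≅ N ⊞ ⨁ B) :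
    Dec M (0 : C) (fun k : Option (Fin m) => k.elim N B) where
  i0 := 0
  r0 := 0
  i k := match k with
    | none => biprod.inl ≫ e.inv
    | some k => biproduct.ι B k ≫ biprod.inr ≫ e.inv
  r k := match k with
    | none => e.hom ≫ biprod.fst
    | some k => e.hom ≫ biprod.snd ≫ biproduct.π B k
  h0 := HasZeroObject.from_zero_ext _ _
  diag := by
    rintro (_ | k)
    · change (biprod.inl ≫ e.inv) ≫ e.hom ≫ biprod.fst = 𝟙 N
      simp
    · change (biproduct.ι B k ≫ biprod.inr ≫ e.inv) ≫ e.hom ≫ biprod.snd ≫ biproduct.π B k = 𝟙 (B k)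
      simp
  off := by
    rintro (_ | k) (_ | l) hkl
    · exact absurd rfl hkl
    · change (biprod.inl ≫ e.inv) ≫ e.hom ≫ biprod.snd ≫ biproduct.π B l = 0
      simp
    · change (biproduct.ι B k ≫ biprod.inr ≫ e.inv) ≫ e.hom ≫ biprod.fst = 0
      simp
    · change (biproduct.ι B k ≫ biprod.inr ≫ e.inv) ≫ e.hom ≫ biprod.snd ≫ biproduct.π B l = 0
      have h : k ≠ l := fun h => hkl (by rw [h])
      simp [biproduct.ι_π_ne B h]
  off0 k := zero_comp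
  off1 k := comp_zero
  total := by
    rw [zero_comp, zero_add, Fintype.sum_option]
    change (e.hom ≫ biprod.fst) ≫ biprod.inl ≫ e.inv +
      ∑ k, (e.hom ≫ biprod.snd ≫ biproduct.π B k) ≫ biproduct.ι B k ≫ biprod.inr ≫ e.inv = 𝟙 M
    have h1 : ∑ k, (e.hom ≫ biprod.snd ≫ biproduct.π B k) ≫ biproduct.ι B k ≫ biprod.inr ≫ e.inv =
        e.hom ≫ biprod.snd ≫ biprod.inr ≫ e.inv := by
      have h2 := biproduct.total (f := B)
      calc _ = e.hom ≫ biprod.snd ≫ (∑ k, biproduct.π B k ≫ biproduct.ι B k) ≫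
            biprod.inr ≫ e.inv := by
            simp only [Preadditive.sum_comp, Preadditive.comp_sum, Category.assoc]
        _ = _ := by rw [h2, Category.id_comp]
    rw [h1]
    have h3 := biprod.total (X := N) (Y := ⨁ B)
    calc (e.hom ≫ biprod.fst) ≫ biprod.inl ≫ e.inv + e.hom ≫ biprod.snd ≫ biprod.inr ≫ e.inv
        = e.hom ≫ (biprod.fst ≫ biprod.inl + biprod.snd ≫ biprod.inr) ≫ e.inv := by
          simp only [Preadditive.add_comp, Preadditive.comp_add, Category.assoc]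
      _ = 𝟙 M := by rw [h3, Category.id_comp, e.hom_inv_id]

variable [IsIdempotentComplete C] [HasShift C ℤ] [∀ n : ℤ, (shiftFunctor C n).Additive]

theorem main (h𝒜 : IsPieces 𝒜) {N : C} (hN : Loc N)
    (hfree : ∀ n : ℤ, n ≠ 0 → IsEmpty (N ≅ N⟦n⟧)) (hsep : ∀ A, 𝒜 A → ∀ i : ℤ, IsEmpty (A ≅ N⟦i⟧))
    {m : ℕ} (B : Fin m → C) (hB : ∀ k, 𝒜 (B k)) {M M' : C} (hM : Nonempty (M ≅ N ⊞ ⨁ B))
    (Θ : Cᵒᵖ ≌ C) (hΘM : Nonempty (Θ.functor.obj (Opposite.op M) ≅ M))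
    (hΘM' : Nonempty (Θ.functor.obj (Opposite.op M') ≅ M'))
    (hΘ : ∀ i : ℤ, Nonempty (N⟦-i⟧ ≅ Θ.functor.obj (Opposite.op (N⟦i⟧))))
    (hk : ∀ A, 𝒜 A → KnownMult Θ A M M') (e : OrbitEquiv M M') : Nonempty (M ≅ M') := by
  classical
  have hP := isPieces_withTwists h𝒜 hN hfree
  have hNP : withTwists 𝒜 N N := Or.inr ⟨0, ⟨((shiftFunctorZero C ℤ).app N).symm⟩⟩
  obtain ⟨e0⟩ := hM
  set E : Option (Fin m) → C := fun k => k.elim N B with hE
  have hEP : ∀ k, withTwists 𝒜 N (E k) := by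
    rintro (_ | k)
    · exact hNP
    · exact Or.inl (hB k)
  have d : Dec M (0 : C) E := decOfIso e0
  have hz : 𝟙 (0 : C) = 0 := HasZeroObject.from_zero_ext _ _
  have h1 := one_mem_through_orbit hP.shift e (one_mem_through hz hEP d)
  obtain ⟨μ', _, E', Z', hZ', hE', ⟨d'⟩⟩ := exists_dec (fun A hA => hP.loc hA) h1
  have h2 : ∀ A, withTwists 𝒜 N A → Nat.card {k // Nonempty (A ≅ E k)} =
      Nat.card {k // Nonempty (A ≅ E' k)} := by
    rintro A (hA | ⟨i, ⟨a⟩⟩)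
    · have h3 := card_eq_of_knownMult hP (Or.inl hA) e hz hZ' hEP hE' d d' Θ hΘM hΘM' (hk A hA) 0
      rwa [card_shift_zero, card_shift_zero] at h3
    · have h3 := card_eq_of_one hP hNP e hz hZ' hEP hE' d d' Θ hΘM' hΘ ?_ ?_ i
      · have h4 : ∀ {ν : Type} (F : ν → C), Nat.card {k // Nonempty (A ≅ F k)} =
            Nat.card {k // Nonempty (N⟦i⟧ ≅ F k)} := by
          intro ν F
          refine Nat.card_congr (Equiv.subtypeEquivRight (fun k => ?_))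
          exact ⟨fun ⟨b⟩ => ⟨a.symm ≪≫ b⟩, fun ⟨b⟩ => ⟨a ≪≫ b⟩⟩
        rw [h4, h4]
        exact h3
      · rw [Nat.card_eq_one_iff_unique]
        refine ⟨⟨?_⟩, ⟨⟨none, ⟨(shiftFunctorZero C ℤ).app N⟩⟩⟩⟩
        rintro ⟨_ | k, ⟨b⟩⟩ ⟨_ | l, ⟨c⟩⟩
        · rfl
        · exact ((hsep _ (hB l) 0).false c.symm).elim
        · exact ((hsep _ (hB k) 0).false b.symm).elim
        · exact ((hsep _ (hB k) 0).false b.symm).elim
      · intro j hj
        have : IsEmpty {k // Nonempty (N⟦j⟧ ≅ E k)} := by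
          constructor
          rintro ⟨_ | k, ⟨b⟩⟩
          · exact (hfree j hj).false b.symm
          · exact (hsep _ (hB k) j).false b.symm
        exact Nat.card_of_isEmpty
  obtain ⟨f⟩ := iso_of_card E E' (card_eq_all hEP hE' h2)
  -- both are the sums of their pieces
  have z : (0 : C) ≅ Z' := by
    refine ⟨0, 0, HasZeroObject.from_zero_ext _ _, ?_⟩
    rw [zero_comp, hZ']
  exact ⟨d.toIso ≪≫ biprod.mapIso z f ≪≫ d'.toIso.symm⟩

end Pool.Agent.Lib.OrlovCI
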