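import Pool.Agent.Lib.OrlovCI.Maschke
import Mathlib.Algebra.Polynomial.GroupRingAction

/-!
# Descent of nilpotence

`S` is a ring with a finite group `G` of automorphisms, the order of `G` is invertible in `S`, and `R`
is a `G`-stable left ideal. If the group `J` of the invariant elements of `R` is nilpotent then every
element of `R` is nilpotent.
-/

set_option autoImplicit false

open Polynomial

namespace Pool.Agent.Lib.OrlovCI

variable {S : Type*} [Ring S]

/-- the polynomials with coefficients in a left ideal -/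
def polyIdeal (R : Ideal S) : Ideal S[X] where
  carrier := {p | ∀ k, p.coeff k ∈ R}
  add_mem' := by
    intro p q hp hq k
    rw [coeff_add]
    exact R.add_mem (hp k) (hq k)
  zero_mem' := by
    intro k
    rw [coeff_zero]
    exact R.zero_mem
  smul_mem' := by
    intro p q hq k
    rw [smul_eq_mul, coeff_mul]
    exact R.sum_mem (fun x _ => R.mul_mem_left _ (hq _))

lemma mem_polyIdeal {R : Ideal S} {p : S[X]} : p ∈ polyIdeal R ↔ ∀ k, p.coeff k ∈ R := Iff.rfl

/-- `1 - r X` is invertible only if `r` is nilpotent -/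
lemma isNilpotent_of_isUnit {r : S} (h : IsUnit (1 - C r * X)) : IsNilpotent r := by
  obtain ⟨v, hv⟩ := h
  set u : S[X] := ↑v⁻¹ with hu
  have h1 : u * (1 - C r * X) = 1 := by rw [← hv, hu, Units.inv_mul]
  have h2 : ∀ k, u.coeff k = r ^ k := by
    intro k
    induction k with
    | zero =>
      have h3 := congrArg (fun p => p.coeff 0) h1
      simp only [mul_sub, mul_one, coeff_sub, coeff_one_zero] at h3
      rw [← mul_assoc, coeff_mul_X_zero, sub_zero] at h3
      rw [h3, pow_zero]
    | succ k ih =>
      have h3 := congrArg (fun p => p.coeff (k + 1)) h1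
      simp only [mul_sub, mul_one, coeff_sub] at h3
      rw [← mul_assoc, coeff_mul_X, coeff_mul_C, ih, coeff_one, if_neg (Nat.succ_ne_zero k),
        sub_eq_zero] at h3
      rw [h3, pow_succ]
  refine ⟨u.natDegree + 1, ?_⟩
  rw [← h2, coeff_eq_zero_of_natDegree_lt (Nat.lt_succ_self _)]

variable {G : Type*} [Group G] [MulSemiringAction G S]

/-- the invariant elements of a left ideal -/
def invariants (G : Type*) [Group G] [MulSemiringAction G S] (R : Ideal S) : Submodule ℤ S where
  carrier := {x | x ∈ R ∧ ∀ g : G, g • x = x}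
  add_mem' := by
    rintro a b ⟨ha, ha'⟩ ⟨hb, hb'⟩
    exact ⟨R.add_mem ha hb, fun g => by rw [smul_add, ha' g, hb' g]⟩
  zero_mem' := ⟨R.zero_mem, fun g => smul_zero g⟩
  smul_mem' := by
    rintro n x ⟨hx, hx'⟩
    refine ⟨zsmul_mem hx n, fun g => ?_⟩
    have h1 : g • (n • x) = n • (g • x) :=
      map_zsmul (MulSemiringAction.toRingHom G S g) n x
    rw [h1, hx' g]

lemma mem_invariants {R : Ideal S} {x : S} :
    x ∈ invariants G R ↔ x ∈ R ∧ ∀ g : G, g • x = x := Iff.rfl

/-- the coefficients of the powers of a polynomial -/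
lemma coeff_pow_mem {J : Submodule ℤ S} {p : S[X]} (hp : ∀ k, p.coeff k ∈ J) (n k : ℕ) :
    (p ^ n).coeff k ∈ J ^ n := by
  induction n generalizing k with
  | zero =>
    rw [pow_zero, pow_zero, coeff_one]
    split
    · exact Submodule.one_le.1 le_rfl
    · exact Submodule.zero_mem _
  | succ n ih =>
    rw [pow_succ, pow_succ, coeff_mul]
    exact Submodule.sum_mem _ (fun x _ => Submodule.mul_mem_mul (ih _) (hp _))

/-- **Descent of nilpotence.** -/
theorem isNilpotent_of_invariants [Finite G] (hG : IsUnit ((Nat.card G : ℕ) : S)) {R : Ideal S}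
    (hR : ∀ (g : G), ∀ r ∈ R, g • r ∈ R) {N : ℕ} (hN : invariants G R ^ N = ⊥) {r : S}
    (hr : r ∈ R) : IsNilpotent r := by
  apply isNilpotent_of_isUnit
  refine isUnit_one_sub (G := G) (R := polyIdeal R) ?_ ?_ ?_ ?_
  · have h1 := hG.map (C : S →+* S[X])
    rwa [map_natCast] at h1
  · intro g p hp k
    rw [coeff_smul]
    exact hR g _ (hp k)
  · intro p hp hg
    have h1 : ∀ k, p.coeff k ∈ invariants G R := by
      intro k
      refine ⟨hp k, fun g => ?_⟩
      have h2 := congrArg (fun q => q.coeff k) (hg g)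
      simpa only [coeff_smul] using h2
    have h2 : p ^ N = 0 := by
      ext k
      have h3 := coeff_pow_mem h1 N k
      rw [hN] at h3
      rw [coeff_zero]
      exact h3
    exact (show IsNilpotent p from ⟨N, h2⟩).isUnit_one_sub
  · intro k
    rw [coeff_C_mul, coeff_X]
    split
    · rwa [mul_one]
    · rw [mul_zero]
      exact R.zero_mem

end Pool.Agent.Lib.OrlovCI
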