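import Pool.Agent.Lib.OrlovCI.Descent
import Pool.Agent.Lib.OrlovCI.NilMaschke

/-!
# Homologically trivial correspondences on the generic member are nilpotent
-/

set_option autoImplicit false

open TensorProduct

namespace Pool.Agent.Lib.OrlovCI

variable {T : Type*} [Ring T] [Algebra ℚ T] {G : Type*} [Group G] [MulSemiringAction G T]
    {A : Type*} [CommRing A] [Algebra ℚ A]
    {c : Restriction T A} {R : Type*} [Ring R] [Algebra ℚ R] {H : Type*} [AddCommGroup H]
    [Module ℚ H] [Module R H] [IsScalarTower ℚ R H]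

namespace Cohomology

open UniversalFamily

/-- the combinations of exterior products and of classes on the diagonal in `I ^ k` -/
noncomputable def filt (c : Restriction T A) (k : ℕ) : AddSubgroup T :=
  (lin c).toAddMonoidHom.range ⊔
    AddSubgroup.map c.diag.toRingHom.toAddMonoidHom (RingHom.ker c.aug ^ k).toAddSubgroup

lemma mem_filt {k : ℕ} {t : T} : t ∈ filt c k ↔
    ∃ (x : A ⊗[ℚ] A) (z : A), z ∈ RingHom.ker c.aug ^ k ∧ t = lin c x + c.diag z := by
  rw [filt, AddSubgroup.mem_sup]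
  constructor
  · rintro ⟨_, ⟨x, rfl⟩, _, ⟨z, hz, rfl⟩, rfl⟩
    exact ⟨x, z, hz, rfl⟩
  · rintro ⟨x, z, hz, rfl⟩
    exact ⟨_, ⟨x, rfl⟩, _, ⟨z, hz, rfl⟩, rfl⟩

lemma filt_mul {k l : ℕ} {s t : T} (hs : s ∈ filt c k) (ht : t ∈ filt c l) :
    s * t ∈ filt c (k + l) := by
  obtain ⟨x, z, hz, rfl⟩ := mem_filt.1 hs
  obtain ⟨y, w, hw, rfl⟩ := mem_filt.1 ht
  obtain ⟨a1, h1⟩ := range_mul c x y
  obtain ⟨a2, h2⟩ := range_right c w x
  obtain ⟨a3, h3⟩ := range_left c z y
  refine mem_filt.2 ⟨a1 + a2 + a3, z * w, ?_, ?_⟩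
  · rw [pow_add]
    exact Ideal.mul_mem_mul hz hw
  · rw [add_mul, mul_add, mul_add, h1, h2, h3, ← map_mul, map_add, map_add]
    abel

/-- the homologically trivial correspondences over `K` -/
noncomputable def triv (h : Cohomology G c R H) : Submodule ℤ T :=
  invariants G (RingHom.ker h.act)

lemma mem_triv (h : Cohomology G c R H) {t : T} :
    t ∈ h.triv ↔ h.act t = 0 ∧ ∀ g : G, g • t = t := Iff.rfl

lemma triv_pow_act (h : Cohomology G c R H) (k : ℕ) {t : T} (ht : t ∈ h.triv ^ (k + 1)) :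
    h.act t = 0 := by
  rw [pow_succ] at ht
  refine Submodule.mul_induction_on ht (fun m _ n hn => ?_) (fun x y hx hy => ?_)
  · rw [map_mul, ((mem_triv h).1 hn).1, mul_zero]
  · rw [map_add, hx, hy, add_zero]

variable {W O Y : Type*} [AddCommGroup W] [Module ℚ W] [AddCommGroup O] [Module ℚ O]
  [AddCommGroup Y] [Module ℚ Y]

lemma triv_pow_filt (h : Cohomology G c R H) (hv : h.van ≠ ⊥) (F : UniversalFamily c G W O Y)
    (k : ℕ) {t : T} (ht : t ∈ h.triv ^ (k + 1)) : t ∈ filt c (k + 1) := by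
  induction k generalizing t with
  | zero =>
    rw [zero_add, pow_one] at ht
    obtain ⟨x, z, hz, hxz⟩ := h.exists_eq_of_act hv F t ht.2 ht.1
    exact mem_filt.2 ⟨x, z, by rw [zero_add, pow_one]; exact hz, hxz⟩
  | succ k ih =>
    rw [pow_succ] at ht
    refine Submodule.mul_induction_on ht (fun m hm n hn => ?_) (fun x y hx hy => ?_)
    · apply filt_mul (ih hm)
      obtain ⟨x, z, hz, hxz⟩ := h.exists_eq_of_act hv F n hn.2 hn.1
      exact mem_filt.2 ⟨x, z, by rw [pow_one]; exact hz, hxz⟩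
    · exact (filt c _).add_mem hx hy

/-- **The ring of the homologically trivial correspondences over `K` is nilpotent.** -/
theorem triv_pow_eq (h : Cohomology G c R H) (hv : h.van ≠ ⊥) (F : UniversalFamily c G W O Y) :
    ∃ N, h.triv ^ N = ⊥ := by
  obtain ⟨n, hn⟩ := c.nilpotent
  have h1 : ∀ t ∈ h.triv ^ (n + 1), ∃ x : A ⊗[ℚ] A, t = lin c x := by
    intro t ht
    obtain ⟨x, z, hz, rfl⟩ := mem_filt.1 (h.triv_pow_filt hv F n ht)
    rw [pow_succ, hn, zero_mul] at hz
    have hz' : z = 0 := hz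
    exact ⟨x, by rw [hz', map_zero, add_zero]⟩
  refine ⟨(n + 1) * 3, ?_⟩
  rw [pow_mul, pow_succ, pow_two, mul_assoc, eq_bot_iff, Submodule.mul_le]
  intro a ha b hb
  rw [Submodule.mem_bot]
  obtain ⟨x, rfl⟩ := h1 a ha
  refine Submodule.mul_induction_on hb (fun m hm l hl => ?_) (fun y z hy hz => ?_)
  · obtain ⟨y, rfl⟩ := h1 m hm
    obtain ⟨z, rfl⟩ := h1 l hl
    exact h.lin_mul_lin_mul_lin y (h.triv_pow_act n hm) x z
  · rw [mul_add, hy, hz, add_zero]

/-- **Homologically trivial correspondences over finite extensions of `K` are nilpotent.** -/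
theorem isNilpotent_of_act [Finite G] (h : Cohomology G c R H) (hv : h.van ≠ ⊥)
    (F : UniversalFamily c G W O Y) (t : T) (h0 : h.act t = 0) : IsNilpotent t := by
  obtain ⟨N, hN⟩ := h.triv_pow_eq hv F
  refine isNilpotent_of_invariants (G := G) ?_ (R := RingHom.ker h.act)
    (fun g r hr => h.act_smul g r hr) hN h0
  have h1 : IsUnit (algebraMap ℚ T (Nat.card G : ℚ)) := by
    apply IsUnit.map
    have : Nat.card G ≠ 0 := Nat.card_pos.ne'
    exact isUnit_iff_ne_zero.2 (by exact_mod_cast this)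
  rwa [map_natCast] at h1

end Cohomology

end Pool.Agent.Lib.OrlovCI
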