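import Pool.Agent.Lib.OrlovCI.Count

/-!
# Comparison through the orbit category
-/

set_option autoImplicit false

open CategoryTheory CategoryTheory.Limits

namespace Pool.Agent.Lib.OrlovCI

open Pool.Agent.Lib.MP_5c0b30_ag Pool.Agent.Lib.OrlovCurves

universe v u

variable {C : Type u} [Category.{v} C] [Preadditive C] {𝒜 : C → Prop} [HasShift C ℤ]
  [∀ n : ℤ, (shiftFunctor C n).Additive]

lemma through_shift (hs : ∀ A, 𝒜 A → ∀ n : ℤ, 𝒜 (A⟦n⟧)) {X Y : C} {f : X ⟶ Y}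
    (hf : f ∈ through 𝒜 X Y) (n : ℤ) : f⟦n⟧' ∈ through 𝒜 (X⟦n⟧) (Y⟦n⟧) := by
  induction hf using AddSubgroup.closure_induction with
  | mem x hx =>
    obtain ⟨A, a, b, hA, rfl⟩ := hx
    exact AddSubgroup.subset_closure ⟨A⟦n⟧, a⟦n⟧', b⟦n⟧', hs A hA n, (Functor.map_comp _ _ _).symm⟩
  | zero =>
    rw [Functor.map_zero]
    exact AddSubgroup.zero_mem _
  | add x y _ _ hx hy =>
    rw [Functor.map_add]
    exact AddSubgroup.add_mem _ hx hy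
  | neg x _ hx =>
    rw [Functor.map_neg]
    exact AddSubgroup.neg_mem _ hx

/-- an object that is isomorphic in the orbit category to a finite sum of pieces is one itself -/
theorem one_mem_through_orbit (hs : ∀ A, 𝒜 A → ∀ n : ℤ, 𝒜 (A⟦n⟧)) {M M' : C}
    (e : OrbitEquiv M M') (h : 𝟙 M ∈ through 𝒜 M M) : 𝟙 M' ∈ through 𝒜 M' M' := by
  have h1 : famId M' 0 ∈ through 𝒜 M' (M'⟦(0 : ℤ)⟧) := by
    rw [← e.inv_hom_id 0]
    refine finsum_induction (fun f => f ∈ through 𝒜 M' (M'⟦(0 : ℤ)⟧)) (AddSubgroup.zero_mem _)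
      (fun _ _ hx hy => AddSubgroup.add_mem _ hx hy) (fun a => ?_)
    rw [ShiftedHom.comp]
    have h2 := through_shift hs h a
    have h3 : e.inv a ≫ (e.hom (0 - a))⟦a⟧' ≫
        (shiftFunctorAdd' C (0 - a) a 0 (sub_add_cancel 0 a)).inv.app M' =
        e.inv a ≫ (𝟙 M)⟦a⟧' ≫ (e.hom (0 - a))⟦a⟧' ≫
        (shiftFunctorAdd' C (0 - a) a 0 (sub_add_cancel 0 a)).inv.app M' := by
      rw [CategoryTheory.Functor.map_id, Category.id_comp]
    rw [h3]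
    exact through_comp _ _ (comp_through _ _ h2)
  have h4 : famId M' 0 = 𝟙 M' ≫ (z0 M').inv := by
    rw [famId, dif_pos rfl, mk₀_eq]
  rw [h4] at h1
  have h5 := comp_through _ (z0 M').hom h1
  rwa [Category.id_comp, Iso.inv_hom_id] at h5

/-- In the orbit category: the number of twists of `A` is the same in `B` and in `B'`. -/
theorem card_orb' (h𝒜 : IsPieces 𝒜) {A M M' Z Z' : C} (hA : 𝒜 A) (e : OrbitEquiv M M')
    (hZ : 𝟙 Z = 0) (hZ' : 𝟙 Z' = 0) {μ μ' : Type} [Fintype μ] [Fintype μ'] {B : μ → C}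
    {B' : μ' → C} (hB : ∀ k, 𝒜 (B k)) (hB' : ∀ k, 𝒜 (B' k)) (d : Dec M Z B) (d' : Dec M' Z' B') :
    Nat.card {k // ∃ b : ℤ, Nonempty (B k ≅ A⟦b⟧)} =
      Nat.card {k // ∃ b : ℤ, Nonempty (B' k ≅ A⟦b⟧)} := by
  classical
  have key : ∀ {ν : Type} [Fintype ν] {E : ν → C} (_ : ∀ k, 𝒜 (E k)) {X W : C} (_ : 𝟙 W = 0)
      (_ : Dec X W E), Nonempty (Frame (D := Orbit C) (orbRad h𝒜 hA) (toOrbit X)
        (Empty ⊕ {k | ∃ b : ℤ, Nonempty (E k ≅ A⟦b⟧)})) := by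
    intro ν _ E hE X W hW dd
    have hW' : 𝟙 (toOrbit W) = 0 := by
      change orbitId W = 0
      rw [← deg0_id, hW, deg0_zero]
    obtain ⟨F⟩ := frame_zero (C := Orbit C) hW' (orbRad h𝒜 hA)
    refine dd.toOrb.frame F {k | ∃ b : ℤ, Nonempty (E k ≅ A⟦b⟧)} (fun k => ?_) ?_
    · exact ((OrbitIso.ofCIso k.2.choose_spec.some).trans
        (OrbitIso.shiftIso A k.2.choose)).toIso.symm
    · intro k hk φ ψ
      change ¬ IsIso ((orbitComp (show OrbitHom A (E k) from φ)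
        (show OrbitHom (E k) A from ψ)) 0)
      refine orbitComp_not_iso (h𝒜.loc hA) _ _ (fun m h => hk ?_)
      obtain ⟨a⟩ := iso_of_term (h𝒜.loc hA) (h𝒜.loc (h𝒜.shift _ (hE k) m)) _ _ h
      obtain ⟨c⟩ := isoBack (E k) m (-m) (add_neg_cancel m)
      exact ⟨-m, ⟨c.symm ≪≫ (shiftFunctor C (-m)).mapIso a.symm⟩⟩
  obtain ⟨G⟩ := key hB hZ d
  obtain ⟨G'⟩ := key hB' hZ' d'
  have h1 := (G.trans e.toOrbitIso.toIso).card_eq _ G'
  rw [Fintype.card_sum, Fintype.card_sum] at h1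
  rw [Nat.card_eq_fintype_card, Nat.card_eq_fintype_card]
  exact Nat.add_left_cancel h1

/-- the multiplicities of the twists of `A` have the same sum -/
theorem exists_sum_eq (h𝒜 : IsPieces 𝒜) {A M M' Z Z' : C} (hA : 𝒜 A) (e : OrbitEquiv M M')
    (hZ : 𝟙 Z = 0) (hZ' : 𝟙 Z' = 0) {μ μ' : Type} [Fintype μ] [Fintype μ'] {B : μ → C}
    {B' : μ' → C} (hB : ∀ k, 𝒜 (B k)) (hB' : ∀ k, 𝒜 (B' k)) (d : Dec M Z B) (d' : Dec M' Z' B')
    (S : Finset ℤ) : ∃ S' : Finset ℤ, S ⊆ S' ∧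
      (∀ b ∉ S', Nat.card {k // Nonempty (A⟦b⟧ ≅ B k)} = 0 ∧
        Nat.card {k // Nonempty (A⟦b⟧ ≅ B' k)} = 0) ∧
      ∑ b ∈ S', Nat.card {k // Nonempty (A⟦b⟧ ≅ B k)} =
        ∑ b ∈ S', Nat.card {k // Nonempty (A⟦b⟧ ≅ B' k)} := by
  classical
  refine ⟨(h𝒜.finite hA B).toFinset ∪ (h𝒜.finite hA B').toFinset ∪ S,
    Finset.subset_union_right, ?_, ?_⟩
  · intro b hb
    simp only [Finset.mem_union, Set.Finite.mem_toFinset, Set.mem_ofPred_eq, not_or] at hb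
    constructor
    · have : IsEmpty {k // Nonempty (A⟦b⟧ ≅ B k)} := ⟨fun k => hb.1.1 ⟨k.1, k.2⟩⟩
      exact Nat.card_of_isEmpty
    · have : IsEmpty {k // Nonempty (A⟦b⟧ ≅ B' k)} := ⟨fun k => hb.1.2 ⟨k.1, k.2⟩⟩
      exact Nat.card_of_isEmpty
  · rw [← h𝒜.card_sum hA B _ (fun b k hbk => by
        simp only [Finset.mem_union, Set.Finite.mem_toFinset, Set.mem_ofPred_eq]
        exact Or.inl (Or.inl ⟨k, hbk⟩)),
      ← h𝒜.card_sum hA B' _ (fun b k hbk => by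
        simp only [Finset.mem_union, Set.Finite.mem_toFinset, Set.mem_ofPred_eq]
        exact Or.inl (Or.inr ⟨k, hbk⟩))]
    exact card_orb' h𝒜 hA e hZ hZ' hB hB' d d'

/-- lower bounds for all twists and equal sums give equality -/
theorem card_eq_of_le (h𝒜 : IsPieces 𝒜) {A M M' Z Z' : C} (hA : 𝒜 A) (e : OrbitEquiv M M')
    (hZ : 𝟙 Z = 0) (hZ' : 𝟙 Z' = 0) {μ μ' : Type} [Fintype μ] [Fintype μ'] {B : μ → C}
    {B' : μ' → C} (hB : ∀ k, 𝒜 (B k)) (hB' : ∀ k, 𝒜 (B' k)) (d : Dec M Z B) (d' : Dec M' Z' B')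
    (h : ∀ i : ℤ, Nat.card {k // Nonempty (A⟦i⟧ ≅ B k)} ≤
      Nat.card {k // Nonempty (A⟦i⟧ ≅ B' k)}) (i : ℤ) :
    Nat.card {k // Nonempty (A⟦i⟧ ≅ B k)} = Nat.card {k // Nonempty (A⟦i⟧ ≅ B' k)} := by
  obtain ⟨S, hS, -, hsum⟩ := exists_sum_eq h𝒜 hA e hZ hZ' hB hB' d d' {i}
  exact (Finset.sum_eq_sum_iff_of_le (fun b _ => h b)).1 hsum i (hS (Finset.mem_singleton_self i))

end Pool.Agent.Lib.OrlovCI
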