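import Pool.Agent.Lib.OrlovCI.Local

/-!
# The class of pieces generated by a class of pieces and the variable part
-/

set_option autoImplicit false

open CategoryTheory CategoryTheory.Limits

namespace Pool.Agent.Lib.OrlovCI

open Pool.Agent.Lib.MP_5c0b30_ag Pool.Agent.Lib.OrlovCurves

universe v u

variable {C : Type u} [Category.{v} C] [Preadditive C]

lemma isLocalRing_of_loc {A : C} (hA : Loc A) : IsLocalRing (End A) := by
  have hn : Nontrivial (End A) := ⟨⟨𝟙 A, 0, hA.one_ne_zero⟩⟩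
  refine IsLocalRing.of_isUnit_or_isUnit_one_sub_self (fun f => ?_)
  rcases hA.2 f with h | h
  · exact Or.inl ((isUnit_iff_isIso (X := A) f).2 h)
  · exact Or.inr ((isUnit_iff_isIso (𝟙 A - (show A ⟶ A from f))).2 h)

variable [HasShift C ℤ] [∀ n : ℤ, (shiftFunctor C n).Additive]

lemma loc_shift {A : C} (hA : Loc A) (n : ℤ) : Loc (A⟦n⟧) := by
  constructor
  · intro h
    apply hA.1
    have h1 : IsIso ((0 : A ⟶ A)⟦n⟧') := by
      rw [Functor.map_zero]
      exact h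
    exact isIso_of_reflects_iso _ (shiftFunctor C n)
  · intro f
    obtain ⟨g, rfl⟩ := (shiftFunctor C n).map_surjective f
    rcases hA.2 g with h | h
    · left
      infer_instance
    · right
      have h1 : 𝟙 (A⟦n⟧) - g⟦n⟧' = (𝟙 A - g)⟦n⟧' := by
        rw [Functor.map_sub, CategoryTheory.Functor.map_id]
      rw [h1]
      infer_instance

/-- The objects of `𝒜` and those isomorphic to a twist of `N`. -/
def withTwists (𝒜 : C → Prop) (N A : C) : Prop := 𝒜 A ∨ ∃ i : ℤ, Nonempty (A ≅ N⟦i⟧)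

theorem isPieces_withTwists {𝒜 : C → Prop} (h𝒜 : IsPieces 𝒜) {N : C} (hN : Loc N)
    (hfree : ∀ n : ℤ, n ≠ 0 → IsEmpty (N ≅ N⟦n⟧)) : IsPieces (withTwists 𝒜 N) where
  isLocal := by
    rintro A (hA | ⟨i, ⟨e⟩⟩)
    · exact h𝒜.isLocal A hA
    · exact isLocalRing_of_loc ((loc_shift hN i).of_iso e.symm)
  shift := by
    rintro A (hA | ⟨i, ⟨e⟩⟩) n
    · exact Or.inl (h𝒜.shift A hA n)
    · exact Or.inr ⟨i + n, ⟨(shiftFunctor C n).mapIso e ≪≫
        ((shiftFunctorAdd' C i n (i + n) rfl).app N).symm⟩⟩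
  free := by
    rintro A (hA | ⟨i, ⟨e⟩⟩) n hn
    · exact h𝒜.free A hA n hn
    · constructor
      intro a
      -- `N⟦i⟧ ≅ N⟦i⟧⟦n⟧ ≅ N⟦n⟧⟦i⟧`
      have b : N⟦i⟧ ≅ N⟦n⟧⟦i⟧ := e.symm ≪≫ a ≪≫ (shiftFunctor C n).mapIso e ≪≫
        ((shiftFunctorAdd' C i n (i + n) rfl).app N).symm ≪≫
        (shiftFunctorAdd' C n i (i + n) (add_comm n i)).app N
      exact (hfree n hn).false ((shiftFunctor C i).preimageIso b)

end Pool.Agent.Lib.OrlovCI
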