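import Pool.Agent.Lib.OrlovCI.TateMain

/-!
# The variable part is local, and uniqueness of the motive
-/

set_option autoImplicit false

open CategoryTheory CategoryTheory.Limits ZeroObject

namespace Pool.Agent.Lib.OrlovCI

open Pool.Agent.Lib.MP_5c0b30_ag Pool.Agent.Lib.OrlovCurves

universe v u

namespace Splitting

variable {C : Type u} [Category.{v} C] [Preadditive C] [HasShift C ℤ]
  {M : C} {T : Type*} [Ring T] [Algebra ℚ T] {G : Type*} [Group G] [Finite G]
  [MulSemiringAction G T] {U : Subgroup G} {E : Descent M T G U} {A : Type*} [CommRing A]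
  [Algebra ℚ A] {c : Restriction T A} {R : Type*} [Ring R] [Algebra ℚ R] {H : Type*}
  [AddCommGroup H] [Module ℚ H] [Module R H] [IsScalarTower ℚ R H] {h : Cohomology G c R H}
  {one : C} {ι : Type} [Fintype ι] (t : Splitting one E h ι)

omit [Finite G] in
lemma smul_P {W O Y : Type*} [AddCommGroup W] [Module ℚ W] [AddCommGroup O] [Module ℚ O]
    [AddCommGroup Y] [Module ℚ Y] (F : UniversalFamily c G W O Y) (g : G) : g • t.P = t.P := by
  rw [P_eq, smul_sub, smul_one, Finset.smul_sum]
  simp only [F.smul_prod]

variable [∀ n : ℤ, (shiftFunctor C n).Additive]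

/-- the variable part is local and not isomorphic to its twists -/
theorem loc_free {N : C} (s : Variable t N) {W O Y : Type*} [AddCommGroup W] [Module ℚ W]
    [AddCommGroup O] [Module ℚ O] [AddCommGroup Y] [Module ℚ Y] (F : UniversalFamily c G W O Y) :
    Loc N ∧ ∀ n : ℤ, n ≠ 0 → IsEmpty (N ≅ N⟦n⟧) := by
  letI := Classical.decEq (Module.End R h.van)
  haveI := t.simple
  letI := cornerAlgebra t.P_idem
  letI := cornerAction t.P_idem (t.smul_P F)
  have hfin : FiniteDimensional ℚ (Module.End R h.van) := t.finite_end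
  exact ⟨(t.family s F (t.smul_P F)).loc, (t.family s F (t.smul_P F)).free⟩

omit [Finite G] [∀ n : ℤ, (shiftFunctor C n).Additive] in
/-- the splitting of the projector -/
theorem exists_variable [IsIdempotentComplete C] : ∃ N : C, Nonempty (Variable t N) := by
  obtain ⟨N, i, r, h1, h2⟩ := IsIdempotentComplete.idempotents_split M t.p t.p_idem
  exact ⟨N, ⟨⟨i, r, h1, h2⟩⟩⟩

omit [Finite G] [∀ n : ℤ, (shiftFunctor C n).Additive] in
lemma Variable.i_proj {N : C} (s : Variable t N) (a : ι) : s.i ≫ t.proj a = 0 := by
  rw [← s.i_p, Category.assoc, t.p_proj, comp_zero]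

omit [Finite G] [∀ n : ℤ, (shiftFunctor C n).Additive] in
lemma Variable.incl_r {N : C} (s : Variable t N) (a : ι) : t.incl a ≫ s.r = 0 := by
  rw [← s.p_r, ← Category.assoc, t.incl_p, zero_comp]

/-- the decomposition of `M` -/
noncomputable def Variable.dec {N : C} (s : Variable t N) :
    Dec M N (fun a => one⟦-t.codim a⟧) where
  i0 := s.i
  r0 := s.r
  i := t.incl
  r := t.proj
  h0 := s.i_r
  diag := t.incl_proj
  off := t.incl_proj_ne
  off0 := s.i_proj
  off1 := s.incl_r
  total := by
    rw [s.r_i, p]
    abel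

/-- the decomposition of `M` with rest `0` -/
noncomputable def Variable.dec' [HasZeroObject C] {N : C} (s : Variable t N) :
    Dec M (0 : C) (fun k : Option ι => k.elim N (fun a => one⟦-t.codim a⟧)) where
  i0 := 0
  r0 := 0
  i k := match k with
    | none => s.i
    | some a => t.incl a
  r k := match k with
    | none => s.r
    | some a => t.proj a
  h0 := HasZeroObject.from_zero_ext _ _
  diag := by
    rintro (_ | a)
    · exact s.i_r
    · exact t.incl_proj a
  off := by
    rintro (_ | a) (_ | b) hab
    · exact absurd rfl hab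
    · exact s.i_proj t b
    · exact s.incl_r t a
    · exact t.incl_proj_ne a b (fun h => hab (by rw [h]))
  off0 _ := zero_comp
  off1 _ := comp_zero
  total := by
    rw [zero_comp, zero_add, Fintype.sum_option]
    change s.r ≫ s.i + ∑ a, t.proj a ≫ t.incl a = 𝟙 M
    rw [s.r_i, p]
    abel

end Splitting

end Pool.Agent.Lib.OrlovCI
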