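import Pool.Agent.Lib.OrlovCI.Result

/-!
# Orlov's conjecture for complete intersections and other zero schemes, with arbitrary partners

`P` is a smooth projective variety whose motive is a sum of Tate motives (for example a projective
space), `𝒳 → B` is the family of the smooth zero schemes of sections of a vector bundle on `P` in a
linear system `V` that separates pairs of points (for example all smooth complete intersections of
given degrees), and `K` is the function field of `B`. Let `X` be the generic member.

* `Restriction`: the ring operations on cycles restricted from `P` (projection formula).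
* `UniversalFamily`: the localisation sequence and homotopy invariance of Chow groups for the
  fibre product `W` of `𝒳` with itself over `B`.
* `Descent`: Galois descent of Chow groups with rational coefficients, for `F / L / K` finite, `F / K`
  Galois; `T` is the ring of the self-correspondences of all degrees of `X_F`.
* `Cohomology`: the action of the correspondences on the cohomology `H` of the fibre, commuting with
  the monodromy of the covering `B_F` of `B`; `van` is the vanishing cohomology.
* `Splitting`: dual bases of the classes that are restrictions of cycles on `P` split off Tate motives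
  from `M`, the remaining cohomology is `van` (Lefschetz), it has one degree and is irreducible
  (Deligne), and its dimension is at least `2`.
* `OrbitEquiv M M'`: isomorphism in the orbit category of Chow motives over `L` modulo Tate twists.
  By a theorem of Orlov it holds for `M = h(X_L)`, `M' = h(X'_L)` if `X_L` and `X'_L` are derived
  equivalent.
* `σ` is the specialisation functor at a point of a covering of `B`.

No finite-dimensionality of motives and no conjecture is used. The proof: the cycles over `K` are
spanned by the exterior products and by the classes on the diagonal (from the universal family), so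
the homologically trivial correspondences over `K` are nilpotent; **radical descent** (a form of
Maschke's theorem for rings with a finite group of automorphisms) shows that over `F` they are in the
radical; so the variable part of the motive over `L` has a local endomorphism ring (Schur's lemma),
and the theorem of Krull and Schmidt applies in the category of motives and in the orbit category.

How a special member `X_b`, `b ∈ B(k)`, with `D(X_b) = D(X')` leads to this situation, if the
canonical bundle is trivial and `dim X ≥ 3` (it is not part of the Lean proof; if it is ample or
antiample then `X_b = X'` by Bondal and Orlov). The Hodge numbers of `X'` outside the middle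
cohomology are those of `X_b`, so `HH²(X') = H¹(T_{X'})` and `HH¹(X') = 0`. So for each infinitesimal
deformation of `X_b` there is a unique deformation of `X'` to which the kernel of the equivalence
extends (the obstruction changes by the bijective map `H¹(T_{X'}) → Ext²(E, E)`). By Grothendieck's
existence theorem and Artin's approximation theorem there is an étale neighbourhood `B' → B` of `b`,
with a `k`-point over `b`, over which `X'` and the kernel extend. Take `L = k(B')`: then `X_L` and
`X'_L` are derived equivalent, and the specialisation of cycles at this point is the functor `σ`, with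
`σ M = h(X_b)` and `σ M' = h(X')`.
-/

set_option autoImplicit false

open CategoryTheory CategoryTheory.Limits

namespace Pool.Agent.Lib.OrlovCI.ShelfCompleteIntersections

open Pool.Agent.Lib.OrlovCI Pool.Agent.Lib.OrlovCurves Pool.Agent.Lib.MP_5c0b30_ag

universe v u w v₀ u₀

/-- Let `X` be the generic member of a family of zero schemes, and `M` its motive over `L`. Then `M`
is the direct sum of Tate motives and of a motive `N` with local endomorphism ring, which is not
isomorphic to a twist of itself or of the unit object. If `M'` is self-dual and isomorphic to `M` in the orbit
category, and the multiplicities of the Tate motives in `M` are at most those in `M'`, or are known up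
to duality, then `M` and `M'` are isomorphic, and so are their images under every functor `σ`. -/
theorem result {C : Type u} [Category.{v} C] [Preadditive C] [HasFiniteBiproducts C]
    [HasBinaryBiproducts C] [IsIdempotentComplete C] [HasShift C ℤ]
    [∀ n : ℤ, (shiftFunctor C n).Additive] (one : C) (hone : Nonempty (End one ≃+* ℚ))
    (hone' : ∀ n : ℤ, n ≠ 0 → ∀ f : one ⟶ one⟦n⟧, f = 0)
    (Θ : Cᵒᵖ ≌ C) (hΘ : ∀ (X : C) (n : ℤ), Nonempty (Θ.functor.obj (Opposite.op (X⟦n⟧)) ≅
      (Θ.functor.obj (Opposite.op X))⟦-n⟧)) (d : ℤ)
    (hd : Nonempty (Θ.functor.obj (Opposite.op one) ≅ one⟦-d⟧))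
    {M : C} (hM : Nonempty (Θ.functor.obj (Opposite.op M) ≅ M))
    {T : Type w} [Ring T] [Algebra ℚ T] {G : Type w} [Group G] [Finite G] [MulSemiringAction G T]
    {U : Subgroup G} (E : Descent M T G U) {A : Type w} [CommRing A] [Algebra ℚ A]
    (c : Restriction T A) {W O Y : Type w} [AddCommGroup W] [Module ℚ W] [AddCommGroup O]
    [Module ℚ O] [AddCommGroup Y] [Module ℚ Y] (F : UniversalFamily c G W O Y)
    {R : Type w} [Ring R] [Algebra ℚ R] {H : Type w} [AddCommGroup H] [Module ℚ H] [Module R H]
    [IsScalarTower ℚ R H] (h : Cohomology G c R H) {ι : Type} [Fintype ι]
    (t : Splitting one E h ι) :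
    (∃ N : C, Nonempty (M ≅ N ⊞ ⨁ fun a => one⟦-t.codim a⟧) ∧ IsLocalRing (End N) ∧
      (∀ n : ℤ, n ≠ 0 → IsEmpty (N ≅ N⟦n⟧)) ∧ ∀ n : ℤ, IsEmpty (one⟦n⟧ ≅ N)) ∧
    ∀ M' : C, Nonempty (Θ.functor.obj (Opposite.op M') ≅ M') → OrbitEquiv M M' →
      KnownMult Θ one M M' →
      Nonempty (M ≅ M') ∧ ∀ (C₀ : Type u₀) (_ : Category.{v₀} C₀) (σ : C ⥤ C₀),
        Nonempty (σ.obj M ≅ σ.obj M') := by
  obtain ⟨N, ⟨s⟩⟩ := t.exists_variable
  obtain ⟨hN, hfree⟩ := t.loc_free s F
  have h1 : Loc one := loc_one hone
  have h2 := free_one h1 hone'
  have hNM : Nonempty (M ≅ N ⊞ ⨁ fun a => one⟦-t.codim a⟧) := ⟨(s.dec t).toIso⟩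
  refine ⟨⟨N, hNM, isLocalRing_of_loc hN, hfree, s.not_iso_one⟩, fun M' hM' e hk => ?_⟩
  obtain ⟨φ⟩ := mainTate Θ h1 h2 hN hfree s.not_iso_one (fun a => -t.codim a) hNM hM hΘ d hd
    (s.dec' t) hM' hk e
  exact ⟨⟨φ⟩, fun C₀ _ σ => ⟨σ.mapIso φ⟩⟩

end Pool.Agent.Lib.OrlovCI.ShelfCompleteIntersections
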