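import Pool.Agent.Lib.OrlovCI.Corner

/-!
# The Tate part and the variable part of the motive
-/

set_option autoImplicit false

open CategoryTheory CategoryTheory.Limits

namespace Pool.Agent.Lib.OrlovCI

open Pool.Agent.Lib.MP_5c0b30_ag Pool.Agent.Lib.OrlovCurves

universe v u

/-- The motive `M` of `X_L` and the cohomology of `X`. The classes `e a` of codimension `codim a`
on `P`, and the classes `e' a` of complementary codimension, are bases of the cohomology classes on
`X` that are restrictions of cycles on `P`, dual to each other for the intersection product. -/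
structure Splitting {C : Type u} [Category.{v} C] [Preadditive C] [HasShift C ℤ] (one : C) {M : C}
    {T : Type*} [Ring T] [Algebra ℚ T] {G : Type*} [Group G] [MulSemiringAction G T]
    {U : Subgroup G} (E : Descent M T G U) {A : Type*} [CommRing A] [Algebra ℚ A]
    {c : Restriction T A} {R : Type*} [Ring R] [Algebra ℚ R] {H : Type*} [AddCommGroup H]
    [Module ℚ H] [Module R H] [IsScalarTower ℚ R H] (h : Cohomology G c R H)
    (ι : Type) [Fintype ι] where
  codim : ι → ℤ
  e : ι → A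
  e' : ι → A
  /-- the class `e a` on `X_L` -/
  incl : ∀ a, one⟦-codim a⟧ ⟶ M
  /-- the intersection with the class `e' a` on `X_L`, followed by the degree -/
  proj : ∀ a, M ⟶ one⟦-codim a⟧
  incl_proj : ∀ a, incl a ≫ proj a = 𝟙 _
  incl_proj_ne : ∀ a b, a ≠ b → incl a ≫ proj b = 0
  ext_eq : ∀ a, E.ext 0 (ShiftedHom.mk₀ 0 rfl (proj a ≫ incl a)) = c.prod (e' a) (e a)
  /-- the cohomology of `X` is the direct sum of the vanishing part and of the classes restricted
  from `P` -/
  sub_mem : ∀ v : H, v - ∑ a, h.act (c.prod (e' a) (e a)) v ∈ h.van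
  /-- the vanishing cohomology has one degree, and a correspondence of degree `n` changes the degree
  by `2 n` -/
  act_ext : ∀ n : ℤ, n ≠ 0 → ∀ f : M ⟶ M⟦n⟧, ∀ v ∈ h.van, h.act (E.ext n f) v ∈ h.van →
    h.act (E.ext n f) v = 0
  /-- the vanishing cohomology is irreducible under every subgroup of finite index of the monodromy
  group -/
  simple : IsSimpleModule R h.van
  /-- an exterior product `x × y` acts by `v ↦ (y · v) x` -/
  rank_one : ∀ (i : ℤ) (a : M ⟶ one⟦i⟧) (b : one⟦i⟧ ⟶ M), ∃ (l : H →ₗ[ℚ] ℚ) (x : H), ∀ v,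
    h.act (E.ext 0 (ShiftedHom.mk₀ 0 rfl (a ≫ b))) v = l v • x
  two_le : 2 ≤ Module.finrank ℚ h.van

namespace Splitting

variable {C : Type u} [Category.{v} C] [Preadditive C] [HasShift C ℤ]
  {M : C} {T : Type*} [Ring T] [Algebra ℚ T] {G : Type*} [Group G]
  [MulSemiringAction G T] {U : Subgroup G} {E : Descent M T G U} {A : Type*} [CommRing A]
  [Algebra ℚ A] {c : Restriction T A} {R : Type*} [Ring R] [Algebra ℚ R] {H : Type*}
  [AddCommGroup H] [Module ℚ H] [Module R H] [IsScalarTower ℚ R H] {h : Cohomology G c R H}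
  {one : C} {ι : Type} [Fintype ι] (t : Splitting one E h ι)

/-- the projector on the variable part -/
noncomputable def p : M ⟶ M := 𝟙 M - ∑ a, t.proj a ≫ t.incl a

lemma p_idem : t.p ≫ t.p = t.p := by
  classical
  have h1 : (∑ a, t.proj a ≫ t.incl a) ≫ (∑ a, t.proj a ≫ t.incl a) =
      ∑ a, t.proj a ≫ t.incl a := by
    rw [Preadditive.sum_comp]
    refine Finset.sum_congr rfl (fun a _ => ?_)
    rw [Preadditive.comp_sum, Finset.sum_eq_single a]
    · rw [Category.assoc, ← Category.assoc (t.incl a), t.incl_proj, Category.id_comp]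
    · intro b _ hb
      rw [Category.assoc, ← Category.assoc (t.incl a), t.incl_proj_ne a b hb.symm, zero_comp,
        comp_zero]
    · intro ha
      exact absurd (Finset.mem_univ a) ha
  rw [p, Preadditive.sub_comp, Preadditive.comp_sub, Preadditive.comp_sub, h1, Category.id_comp,
    Category.id_comp, Category.comp_id]
  abel

lemma incl_p (a : ι) : t.incl a ≫ t.p = 0 := by
  classical
  rw [p, Preadditive.comp_sub, Preadditive.comp_sum, Finset.sum_eq_single a]
  · rw [← Category.assoc, t.incl_proj, Category.id_comp, Category.comp_id, sub_self]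
  · intro b _ hb
    rw [← Category.assoc, t.incl_proj_ne a b hb.symm, zero_comp]
  · intro ha
    exact absurd (Finset.mem_univ a) ha

lemma p_proj (a : ι) : t.p ≫ t.proj a = 0 := by
  classical
  rw [p, Preadditive.sub_comp, Preadditive.sum_comp, Finset.sum_eq_single a]
  · rw [Category.assoc, t.incl_proj, Category.id_comp, Category.comp_id, sub_self]
  · intro b _ hb
    rw [Category.assoc, t.incl_proj_ne b a hb, comp_zero]
  · intro ha
    exact absurd (Finset.mem_univ a) ha

/-- the projector as a correspondence over `F` -/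
noncomputable def P : T := E.ext 0 (ShiftedHom.mk₀ 0 rfl t.p)

omit [Preadditive C] in
lemma mk₀_comp_mk₀' (f g : M ⟶ M) : ShiftedHom.comp (ShiftedHom.mk₀ (0 : ℤ) rfl f)
    (ShiftedHom.mk₀ (0 : ℤ) rfl g) (add_zero 0) = ShiftedHom.mk₀ (0 : ℤ) rfl (f ≫ g) :=
  ShiftedHom.mk₀_comp_mk₀ f g (add_zero 0) rfl rfl

lemma P_idem : IsIdempotentElem t.P := by
  rw [IsIdempotentElem, P, ← E.ext_comp _ _ (add_zero 0), mk₀_comp_mk₀', p_idem]

lemma mk₀_sub' (f g : M ⟶ M) : ShiftedHom.mk₀ (0 : ℤ) rfl (f - g) =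
    ShiftedHom.mk₀ (0 : ℤ) rfl f - ShiftedHom.mk₀ (0 : ℤ) rfl g := by
  rw [mk₀_eq, mk₀_eq, mk₀_eq, Preadditive.sub_comp]

lemma mk₀_sum' (f : ι → (M ⟶ M)) : ShiftedHom.mk₀ (0 : ℤ) rfl (∑ a, f a) =
    ∑ a, ShiftedHom.mk₀ (0 : ℤ) rfl (f a) := by
  simp only [mk₀_eq, Preadditive.sum_comp]

lemma P_eq : t.P = 1 - ∑ a, c.prod (t.e' a) (t.e a) := by
  rw [P, p, mk₀_sub', map_sub, E.ext_id, mk₀_sum', map_sum]
  simp only [t.ext_eq]

lemma act_P_van {v : H} (hv : v ∈ h.van) : h.act t.P v = v := by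
  rw [P_eq, map_sub, map_one, map_sum, LinearMap.sub_apply, LinearMap.sum_apply]
  simp only [h.act_prod_van _ _ v hv, Finset.sum_const_zero, sub_zero]
  rfl

lemma act_P_mem (v : H) : h.act t.P v ∈ h.van := by
  rw [P_eq, map_sub, map_one, map_sum, LinearMap.sub_apply, LinearMap.sum_apply]
  exact t.sub_mem v

/-- The variable part: a splitting of the projector. -/
structure Variable (N : C) where
  i : N ⟶ M
  r : M ⟶ N
  i_r : i ≫ r = 𝟙 N
  r_i : r ≫ i = t.p

namespace Variable

variable {t} {N : C} (s : Variable t N)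

lemma p_r : t.p ≫ s.r = s.r := by rw [← s.r_i, Category.assoc, s.i_r, Category.comp_id]

lemma i_p : s.i ≫ t.p = s.i := by rw [← s.r_i, ← Category.assoc, s.i_r, Category.id_comp]

include s in
/-- `N` is not a twist of the unit object -/
theorem not_iso_one (i : ℤ) : IsEmpty (one⟦i⟧ ≅ N) := by
  constructor
  intro φ
  have h1 : (s.r ≫ φ.inv) ≫ (φ.hom ≫ s.i) = t.p := by
    rw [Category.assoc, ← Category.assoc φ.inv, φ.inv_hom_id, Category.id_comp, s.r_i]
  obtain ⟨l, x, hx⟩ := t.rank_one i (s.r ≫ φ.inv) (φ.hom ≫ s.i)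
  rw [h1] at hx
  have h2 : Module.finrank ℚ h.van ≤ 1 := by
    apply finrank_le_one (v := (⟨h.act t.P x, t.act_P_mem x⟩ : h.van))
    intro w
    refine ⟨l w, Subtype.ext ?_⟩
    have h3 := hx w
    change h.act t.P w = _ at h3
    rw [t.act_P_van w.2] at h3
    have h4 := congrArg (h.act t.P) h3
    have h5 : ∀ (q : ℚ) (y : H), h.act t.P (q • y) = q • h.act t.P y := by
      intro q y
      have h6 : q • y = (algebraMap ℚ R q) • y := by rw [algebraMap_smul]
      rw [h6, map_smul, algebraMap_smul]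
    rw [t.act_P_van w.2, h5] at h4
    exact h4.symm
  exact absurd (t.two_le.trans h2) (by norm_num)

variable [∀ n : ℤ, (shiftFunctor C n).Additive]

/-- a morphism of the variable part as a morphism of `M` -/
def up {n : ℤ} (f : N ⟶ N⟦n⟧) : M ⟶ M⟦n⟧ := s.r ≫ f ≫ s.i⟦n⟧'

omit [∀ n : ℤ, (shiftFunctor C n).Additive] in
lemma up_comp {a b n : ℤ} (f : N ⟶ N⟦a⟧) (g : N ⟶ N⟦b⟧) (hn : b + a = n) :
    ShiftedHom.comp (s.up f) (s.up g) hn = s.up (ShiftedHom.comp f g hn) := by
  simp only [ShiftedHom.comp, up, Functor.map_comp, Category.assoc]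
  rw [← Functor.map_comp_assoc, s.i_r, CategoryTheory.Functor.map_id, Category.id_comp]
  have h1 := (shiftFunctorAdd' C b a n hn).inv.naturality s.i
  simp only [Functor.comp_map] at h1
  rw [h1]

omit [∀ n : ℤ, (shiftFunctor C n).Additive] in
lemma up_id : s.up (ShiftedHom.mk₀ (0 : ℤ) rfl (𝟙 N)) = ShiftedHom.mk₀ (0 : ℤ) rfl t.p := by
  rw [up, mk₀_eq, mk₀_eq, Category.id_comp, ← s.r_i, Category.assoc]
  congr 1
  exact ((shiftFunctorZero C ℤ).inv.naturality s.i).symm

omit [∀ n : ℤ, (shiftFunctor C n).Additive] in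
lemma left_up {n : ℤ} (f : N ⟶ N⟦n⟧) : t.P * E.ext n (s.up f) = E.ext n (s.up f) := by
  rw [P, ← E.ext_comp _ _ (add_zero n), ShiftedHom.mk₀_comp, up, ← Category.assoc, s.p_r]

omit [∀ n : ℤ, (shiftFunctor C n).Additive] in
lemma up_right {n : ℤ} (f : N ⟶ N⟦n⟧) : E.ext n (s.up f) * t.P = E.ext n (s.up f) := by
  rw [P, ← E.ext_comp _ _ (zero_add n), ShiftedHom.comp_mk₀, up, Category.assoc, Category.assoc,
    ← Functor.map_comp, s.i_p]

/-- a morphism of `M` restricted to the variable part -/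
def down {n : ℤ} (f : M ⟶ M⟦n⟧) : N ⟶ N⟦n⟧ := s.i ≫ f ≫ s.r⟦n⟧'

omit [∀ n : ℤ, (shiftFunctor C n).Additive] in
lemma down_up {n : ℤ} (f : N ⟶ N⟦n⟧) : s.down (s.up f) = f := by
  rw [down, up, Category.assoc, Category.assoc, ← Functor.map_comp, s.i_r,
    CategoryTheory.Functor.map_id, Category.comp_id, ← Category.assoc, s.i_r, Category.id_comp]

omit [∀ n : ℤ, (shiftFunctor C n).Additive] in
lemma ext_up_down {n : ℤ} (f : M ⟶ M⟦n⟧) :
    E.ext n (s.up (s.down f)) = t.P * E.ext n f * t.P := by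
  rw [P, ← E.ext_comp _ _ (add_zero n), ShiftedHom.mk₀_comp, ← E.ext_comp _ _ (zero_add n),
    ShiftedHom.comp_mk₀, up, down, ← s.r_i]
  congr 1
  simp only [Category.assoc, Functor.map_comp]

end Variable

end Splitting

end Pool.Agent.Lib.OrlovCI
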