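import Pool.Agent.Lib.OrlovCI.Tate
import Mathlib.LinearAlgebra.FreeModule.Finite.Basic
import Mathlib.LinearAlgebra.Dimension.Free

/-!
# The correspondences of the variable part
-/

set_option autoImplicit false

open CategoryTheory CategoryTheory.Limits

namespace Pool.Agent.Lib.OrlovCI

open Pool.Agent.Lib.MP_5c0b30_ag Pool.Agent.Lib.OrlovCurves

universe v u

namespace Splitting

variable {C : Type u} [Category.{v} C] [Preadditive C] [HasShift C ℤ]
  {M : C} {T : Type*} [Ring T] [Algebra ℚ T] {G : Type*} [Group G]
  [MulSemiringAction G T] {U : Subgroup G} {E : Descent M T G U} {A : Type*} [CommRing A]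
  [Algebra ℚ A] {c : Restriction T A} {R : Type*} [Ring R] [Algebra ℚ R] {H : Type*}
  [AddCommGroup H] [Module ℚ H] [Module R H] [IsScalarTower ℚ R H] {h : Cohomology G c R H}
  {one : C} {ι : Type} [Fintype ι] (t : Splitting one E h ι)

lemma act_mem {x : T} (hx : t.P * x = x) (v : H) : h.act x v ∈ h.van := by
  rw [← hx, map_mul]
  exact t.act_P_mem _

lemma act_eq_zero {x : T} (hx : x * t.P = x) (h0 : ∀ v ∈ h.van, h.act x v = 0) : h.act x = 0 := by
  ext v
  rw [← hx, map_mul]
  exact h0 _ (t.act_P_mem v)

/-- the corner of the projector -/
abbrev Cor : Type _ := t.P_idem.Corner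

/-- the action on the vanishing cohomology -/
noncomputable def actFun (x : t.Cor) : Module.End R h.van :=
  (h.act (cval t.P_idem x)).restrict (fun v _ => t.act_mem (left_cval t.P_idem x) v)

lemma actFun_apply (x : t.Cor) (v : h.van) :
    ((t.actFun x v : h.van) : H) = h.act (cval t.P_idem x) v := rfl

/-- the action on the vanishing cohomology -/
noncomputable def actHom :
    letI := cornerAlgebra t.P_idem
    t.Cor →ₐ[ℚ] Module.End R h.van :=
  letI := cornerAlgebra t.P_idem
  { toFun := t.actFun
    map_one' := by
      ext v
      rw [actFun_apply, cval_one, t.act_P_van v.2]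
      rfl
    map_mul' := fun x y => by
      ext v
      rw [actFun_apply, cval_mul, map_mul]
      rfl
    map_zero' := by
      ext v
      rw [actFun_apply, map_zero, map_zero]
      rfl
    map_add' := fun x y => by
      ext v
      rw [actFun_apply, map_add, map_add]
      rfl
    commutes' := fun q => by
      ext v
      rw [actFun_apply, Algebra.algebraMap_eq_smul_one, cval_smul, cval_one, map_smul,
        LinearMap.smul_apply, t.act_P_van v.2, Module.algebraMap_end_apply]
      rfl }

include t in
lemma van_ne : h.van ≠ ⊥ := by
  have h1 := t.simple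
  have h2 := IsSimpleModule.nontrivial R h.van
  intro h3
  rw [h3] at h2
  exact not_subsingleton _ (inferInstance : Subsingleton (⊥ : Submodule R H))

include t in
lemma finite_van : Module.Finite ℚ h.van :=
  Module.finite_of_finrank_pos (by
    have := t.two_le
    omega)

include t in
lemma finite_end : Module.Finite ℚ (Module.End R h.van) := by
  have := t.finite_van
  let f : Module.End R h.van →ₗ[ℚ] Module.End ℚ h.van :=
    { toFun := fun x => x.restrictScalars ℚ
      map_add' := fun _ _ => rfl
      map_smul' := fun _ _ => rfl }
  have hf : Function.Injective f := by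
    intro x y hxy
    ext v
    have h1 := LinearMap.congr_fun hxy v
    exact congrArg Subtype.val h1
  exact Module.Finite.of_injective f hf

variable [∀ n : ℤ, (shiftFunctor C n).Additive]

open Variable in
/-- The variable part satisfies the conditions in the definition of `Family`. -/
noncomputable def family {N : C} (s : Variable t N) {W O Y : Type*} [AddCommGroup W] [Module ℚ W]
    [AddCommGroup O] [Module ℚ O] [AddCommGroup Y] [Module ℚ Y] (F : UniversalFamily c G W O Y)
    (hG : ∀ g : G, g • t.P = t.P) :
    letI := Classical.decEq (Module.End R h.van)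
    haveI := t.simple
    letI := cornerAlgebra t.P_idem
    letI := cornerAction t.P_idem hG
    Family N t.Cor G U (Module.End R h.van) :=
  letI := Classical.decEq (Module.End R h.van)
  haveI := t.simple
  letI := cornerAlgebra t.P_idem
  letI := cornerAction t.P_idem hG
  { ext := fun n =>
      { toFun := fun f => cmk t.P_idem (E.ext n (s.up f)) ⟨s.left_up f, s.up_right f⟩
        map_zero' := cval_inj t.P_idem (by
          rw [cval_cmk, up, zero_comp, comp_zero, map_zero, map_zero])
        map_add' := fun f g => cval_inj t.P_idem (by
          rw [cval_cmk, map_add, cval_cmk, cval_cmk, ← map_add, up, up, up, Preadditive.add_comp,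
            Preadditive.comp_add]) }
    ext_id := cval_inj t.P_idem (by
      change E.ext 0 (s.up _) = _
      rw [up_id, cval_one, P])
    ext_comp := fun {a b n} f g hn => cval_inj t.P_idem (by
      change E.ext n (s.up _) = E.ext a (s.up f) * E.ext b (s.up g)
      rw [← s.up_comp, E.ext_comp])
    descent := fun x hx => by
      obtain ⟨f, hf, hxf⟩ := E.descent (cval t.P_idem x)
        (fun g hg => congrArg (cval t.P_idem) (hx g hg))
      refine ⟨fun n => s.down (f n), hf.subset (fun n hn h0 => hn (by
        change s.down (f n) = 0
        rw [h0, down, zero_comp, comp_zero])), cval_inj t.P_idem ?_⟩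
      have hfin : (Function.support (fun n => E.ext n (f n))).Finite := hf.subset
        (fun n hn h0 => hn (by
          change E.ext n (f n) = 0
          rw [h0, map_zero]))
      have h1 : cval t.P_idem x = ∑ᶠ n, E.ext n (s.up (s.down (f n))) := by
        have h2 : cval t.P_idem x = t.P * cval t.P_idem x * t.P := by
          rw [left_cval, cval_right]
        rw [h2, hxf, mul_finsum' _ _ hfin, finsum_mul']
        · exact finsum_congr (fun n => (s.ext_up_down (f n)).symm)
        · refine hfin.subset (fun n hn h0 => hn ?_)
          have h3 : E.ext n (f n) = 0 := h0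
          change t.P * E.ext n (f n) = 0
          rw [h3, mul_zero]
      rw [h1, AddMonoidHom.map_finsum]
      · rfl
      · refine hfin.subset (fun n hn h0 => hn (cval_inj t.P_idem ?_))
        have h3 : E.ext n (f n) = 0 := h0
        change E.ext n (s.up (s.down (f n))) = 0
        rw [s.ext_up_down, h3, mul_zero, zero_mul]
    invariant := fun g hg n f => cval_inj t.P_idem (E.invariant g hg n _)
    unique := fun f hf h0 => by
      have hfin : (Function.support (fun n => cmk t.P_idem (E.ext n (s.up (f n)))
          ⟨s.left_up (f n), s.up_right (f n)⟩)).Finite := by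
        refine hf.subset (fun n hn hn0 => hn (cval_inj t.P_idem ?_))
        change E.ext n (s.up (f n)) = 0
        rw [hn0, up, zero_comp, comp_zero, map_zero]
      have h1 : ∑ᶠ n, E.ext n (s.up (f n)) = 0 :=
        ((cval t.P_idem).map_finsum hfin).symm.trans
          ((congrArg (cval t.P_idem) h0).trans (map_zero (cval t.P_idem)))
      have h3 := E.unique (fun n => s.up (f n)) (hf.subset (fun n hn hn0 => hn (by
        change s.up (f n) = 0
        rw [hn0, up, zero_comp, comp_zero]))) h1
      funext n
      have h4 := congrFun h3 n
      have h5 := congrArg s.down h4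
      rw [s.down_up] at h5
      rw [h5]
      change s.i ≫ (0 : M ⟶ M⟦n⟧) ≫ _ = 0
      rw [zero_comp, comp_zero]
    act := t.actHom
    act_ext := fun n hn f => by
      ext v
      change h.act (E.ext n (s.up f)) v = 0
      exact t.act_ext n hn (s.up f) v v.2 (t.act_mem (s.left_up f) (v : H))
    act_smul := fun g x hx => by
      have h1 : h.act (cval t.P_idem x) = 0 := t.act_eq_zero (cval_right t.P_idem x) (fun v hv => by
        have h2 := LinearMap.congr_fun hx ⟨v, hv⟩
        exact congrArg Subtype.val h2)
      have h2 := h.act_smul g _ h1
      ext v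
      change h.act (g • cval t.P_idem x) v = 0
      rw [h2]
      rfl
    nilpotent := fun x hx h0 => by
      have h1 : h.act (cval t.P_idem x) = 0 := t.act_eq_zero (cval_right t.P_idem x) (fun v hv => by
        have h2 := LinearMap.congr_fun h0 ⟨v, hv⟩
        exact congrArg Subtype.val h2)
      obtain ⟨n, hn⟩ := h.isNilpotent t.van_ne F (cval t.P_idem x)
        (fun g => congrArg (cval t.P_idem) (hx g)) h1
      refine ⟨n + 1, cval_inj t.P_idem ?_⟩
      rw [cval_pow, pow_succ, hn, zero_mul, map_zero] }

end Splitting

end Pool.Agent.Lib.OrlovCI
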