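import Pool.Agent.Lib.OrlovCI.Dual
import Pool.Agent.Lib.OrlovCI.VarFamily

/-!
# Assembly in the case of Tate motives
-/

set_option autoImplicit false

open CategoryTheory CategoryTheory.Limits ZeroObject

namespace Pool.Agent.Lib.OrlovCI

open Pool.Agent.Lib.MP_5c0b30_ag Pool.Agent.Lib.OrlovCurves

universe v u

variable {C : Type u} [Category.{v} C] [Preadditive C]

lemma loc_one {one : C} (h : Nonempty (End one ≃+* ℚ)) : Loc one := by
  obtain ⟨e⟩ := h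
  have h1 : IsLocalRing (End one) := e.symm.isLocalRing
  exact loc_of_isLocalRing

variable [HasShift C ℤ]

lemma free_one {one : C} (h1 : Loc one) (h : ∀ n : ℤ, n ≠ 0 → ∀ f : one ⟶ one⟦n⟧, f = 0) :
    ∀ n : ℤ, n ≠ 0 → IsEmpty (one ≅ one⟦n⟧) := by
  intro n hn
  constructor
  intro e
  apply h1.one_ne_zero
  rw [← e.hom_inv_id, h n hn e.hom, zero_comp]

lemma knownMult_of_iso {one A M M' : C} {Θ : Cᵒᵖ ≌ C} (h : KnownMult Θ one M M') {j : ℤ}
    (hA : Nonempty (A ≅ one⟦j⟧)) : KnownMult Θ A M M' := by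
  obtain ⟨a⟩ := hA
  let s : ∀ i : ℤ, A⟦i⟧ ≅ one⟦j + i⟧ := fun i =>
    (shiftFunctor C i).mapIso a ≪≫ ((shiftFunctorAdd' C j i (j + i) rfl).app one).symm
  rcases h with h | ⟨n, hn⟩
  · exact Or.inl (fun i n hs => ((h (j + i) n) (hs.congr (fun _ => s i))).congr
      (fun _ => (s i).symm))
  · refine Or.inr ⟨n - j, fun i => ?_⟩
    rcases hn (j + i) with h1 | h1 | h1
    · left
      intro m
      constructor
      · intro hs
        exact ((h1 m).1 (hs.congr (fun _ => s i))).congr (fun _ => (s i).symm)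
      · intro hs
        exact ((h1 m).2 (hs.congr (fun _ => s i))).congr (fun _ => (s i).symm)
    · right
      left
      omega
    · right
      right
      have h2 : j + (n - j) = n := by omega
      have b : A⟦n - j⟧ ≅ one⟦n⟧ := s (n - j) ≪≫ eqToIso (by rw [h2])
      obtain ⟨h3⟩ := h1
      exact ⟨s i ≪≫ h3 ≪≫ Θ.functor.mapIso b.op⟩

variable [∀ n : ℤ, (shiftFunctor C n).Additive]

lemma isPieces_one {one : C} (h1 : Loc one) (h2 : ∀ n : ℤ, n ≠ 0 → IsEmpty (one ≅ one⟦n⟧)) :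
    IsPieces (withTwists (fun _ : C => False) one) :=
  isPieces_withTwists ⟨fun _ h => h.elim, fun _ h _ => h.elim, fun _ h _ _ => h.elim⟩ h1 h2

/-- the case where all multiplicities in `M` are at most `1` -/
lemma knownMult_of_injective [HasZeroObject C] {one N M M' : C} (Θ : Cᵒᵖ ≌ C) (h1 : Loc one)
    (h2 : ∀ n : ℤ, n ≠ 0 → IsEmpty (one ≅ one⟦n⟧)) (hN : Loc N)
    (hsep : ∀ i : ℤ, IsEmpty (one⟦i⟧ ≅ N)) {ι : Type} [Fintype ι] (n : ι → ℤ)
    (d : Dec M (0 : C) (fun k : Option ι => k.elim N (fun a => one⟦n a⟧)))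
    (hn : Function.Injective n) (hM' : ∀ a, IsSummand (fun _ : Fin 1 => one⟦n a⟧) M') :
    KnownMult Θ one M M' := by
  left
  intro i m hs
  have hz : 𝟙 (0 : C) = 0 := HasZeroObject.from_zero_ext _ _
  have hE : ∀ k : Option ι, Loc (k.elim N (fun a => one⟦n a⟧)) := by
    rintro (_ | a)
    · exact hN
    · exact loc_shift h1 _
  rw [mult_iff hz (loc_shift h1 i) hE d m] at hs
  have h3 : Subsingleton {k : Option ι // Nonempty (one⟦i⟧ ≅ k.elim N (fun a => one⟦n a⟧))} := by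
    constructor
    rintro ⟨_ | a, ⟨b⟩⟩ ⟨_ | a', ⟨b'⟩⟩
    · rfl
    · exact ((hsep i).false b).elim
    · exact ((hsep i).false b').elim
    · have h4 := (isPieces_one h1 h2).inj (A := one) (Or.inr ⟨0,
        ⟨((shiftFunctorZero C ℤ).app one).symm⟩⟩) ⟨b.symm ≪≫ b'⟩
      rw [Subtype.mk.injEq, hn h4]
  have h4 : m ≤ 1 := hs.trans (Finite.card_le_one_iff_subsingleton.2 h3)
  rcases Nat.le_one_iff_eq_zero_or_eq_one.1 h4 with rfl | rfl
  · exact ⟨fun k => k.elim0, fun k => k.elim0, fun k => k.elim0, fun k => k.elim0⟩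
  · obtain ⟨⟨k, ⟨b⟩⟩⟩ := (Nat.card_pos_iff.1 (Nat.lt_of_lt_of_le Nat.zero_lt_one hs)).1
    rcases k with _ | a
    · exact ((hsep i).false b).elim
    · exact (hM' a).congr (fun _ => b.symm)

variable [HasFiniteBiproducts C] [HasBinaryBiproducts C]

/-- the dual of the variable part -/
theorem dual_variable {one N M : C} (Θ : Cᵒᵖ ≌ C) (h1 : Loc one) (hN : Loc N)
    (hsep : ∀ i : ℤ, IsEmpty (one⟦i⟧ ≅ N)) {ι : Type} [Fintype ι] (n : ι → ℤ)
    (d : Dec M (0 : C) (fun k : Option ι => k.elim N (fun a => one⟦n a⟧)))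
    (hM : Nonempty (Θ.functor.obj (Opposite.op M) ≅ M))
    (hΘ : ∀ (X : C) (n : ℤ), Nonempty (Θ.functor.obj (Opposite.op (X⟦n⟧)) ≅
      (Θ.functor.obj (Opposite.op X))⟦-n⟧)) (m : ℤ)
    (h0 : Nonempty (Θ.functor.obj (Opposite.op one) ≅ one⟦-m⟧)) :
    Nonempty (Θ.functor.obj (Opposite.op N) ≅ N) := by
  have hz : 𝟙 (0 : C) = 0 := HasZeroObject.from_zero_ext _ _
  have hE : ∀ k : Option ι, Loc (k.elim N (fun a => one⟦n a⟧)) := by
    rintro (_ | a)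
    · exact hN
    · exact loc_shift h1 _
  obtain ⟨k, ⟨b⟩⟩ := dual_summand Θ hN hz hE d hM ⟨none, ⟨Iso.refl _⟩⟩
  rcases k with _ | a
  · exact ⟨b⟩
  · exfalso
    obtain ⟨c0⟩ := h0
    obtain ⟨c1⟩ := hΘ one (-m - n a)
    have h2 : one⟦-m⟧⟦-(-m - n a)⟧ ≅ one⟦n a⟧ :=
      ((shiftFunctorAdd' C (-m) (-(-m - n a)) (n a) (by ring)).app one).symm
    obtain ⟨c2⟩ := iso_of_dual Θ ⟨c1 ≪≫ (shiftFunctor C _).mapIso c0 ≪≫ h2 ≪≫ b.symm⟩
    exact (hsep _).false c2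

variable [IsIdempotentComplete C]

/-- the main theorem with Tate motives as pieces -/
theorem mainTate {one N M M' : C} (Θ : Cᵒᵖ ≌ C) (h1 : Loc one)
    (h2 : ∀ n : ℤ, n ≠ 0 → IsEmpty (one ≅ one⟦n⟧)) (hN : Loc N)
    (hfree : ∀ n : ℤ, n ≠ 0 → IsEmpty (N ≅ N⟦n⟧)) (hsep : ∀ i : ℤ, IsEmpty (one⟦i⟧ ≅ N))
    {ι : Type} [Fintype ι] (n : ι → ℤ) (hNM : Nonempty (M ≅ N ⊞ ⨁ (fun a => one⟦n a⟧)))
    (hM : Nonempty (Θ.functor.obj (Opposite.op M) ≅ M))
    (hΘ : ∀ (X : C) (n : ℤ), Nonempty (Θ.functor.obj (Opposite.op (X⟦n⟧)) ≅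
      (Θ.functor.obj (Opposite.op X))⟦-n⟧)) (m : ℤ)
    (h0 : Nonempty (Θ.functor.obj (Opposite.op one) ≅ one⟦-m⟧))
    (d : Dec M (0 : C) (fun k : Option ι => k.elim N (fun a => one⟦n a⟧)))
    (hM' : Nonempty (Θ.functor.obj (Opposite.op M') ≅ M'))
    (hk : KnownMult Θ one M M') (e : OrbitEquiv M M') : Nonempty (M ≅ M') := by
  obtain ⟨b⟩ := biproduct_fin (fun a : ι => one⟦n a⟧)
  obtain ⟨a⟩ := hNM
  obtain ⟨c⟩ := dual_variable Θ h1 hN hsep n d hM hΘ m h0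
  refine main (isPieces_one h1 h2) hN hfree ?_ (fun k => one⟦n ((Fintype.equivFin ι).symm k)⟧) ?_
    ⟨a ≪≫ biprod.mapIso (Iso.refl _) b.symm⟩ Θ hM hM' ?_ ?_ e
  · rintro A (hA | ⟨i, ⟨x⟩⟩) j
    · exact hA.elim
    · constructor
      intro y
      -- `one⟦i - j⟧ ≅ N`
      have z : one⟦i - j⟧⟦j⟧ ≅ N⟦j⟧ :=
        ((shiftFunctorAdd' C (i - j) j i (by ring)).app one).symm ≪≫ x.symm ≪≫ y
      exact (hsep (i - j)).false ((shiftFunctor C j).preimageIso z)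
  · intro k
    exact Or.inr ⟨_, ⟨Iso.refl _⟩⟩
  · intro i
    obtain ⟨x⟩ := hΘ N i
    exact ⟨(x ≪≫ (shiftFunctor C (-i)).mapIso c).symm⟩
  · rintro A (hA | ⟨i, hA⟩)
    · exact hA.elim
    · exact knownMult_of_iso hk hA

end Pool.Agent.Lib.OrlovCI
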